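import Mathlib
import Pool.Agent.H389R3.LP2

/-!
# Local collisions of zeros and the discriminant
-/

set_option autoImplicit false

open Finset Polynomial

namespace Pool.Agent.Y642.LZ

open Pool.Agent.H389R3.LP

section

variable {A : Type*} [CommRing A] [IsDomain A]

open Classical in
/-- the number of ordered pairs of different elements which are congruent modulo `π` -/
noncomputable def coll (π : A) (T : Finset A) : ℕ :=
  ∑ s ∈ T, ((T.erase s).filter fun w => π ∣ s - w).card

/-- divisibility of the resultant -/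
theorem dvd_res_gen [CharZero A] (π : A) (Q : ℤ[X]) (hQ : Q.Monic) (T : Finset A)
    (hT : ∀ s ∈ T, (Q.map (Int.castRingHom A)).eval s = 0) :
    π ^ coll π T ∣
      ((resultant Q (derivative Q) Q.natDegree (derivative Q).natDegree : ℤ) : A) := by
  classical
  set φ := Int.castRingHom A with hφ
  have hinj : Function.Injective φ := RingHom.injective_int φ
  set F := Q.map φ with hF
  set r := resultant Q (derivative Q) Q.natDegree (derivative Q).natDegree with hr
  have hFm : F.Monic := hQ.map φ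
  have h1 := resultant_map_map Q (derivative Q) Q.natDegree (derivative Q).natDegree φ
  rw [← hF, ← derivative_map, ← hF, ← hr] at h1
  have h3 : F.natDegree = Q.natDegree := natDegree_map_eq_of_injective hinj Q
  set B : A[X] := ∏ s ∈ T, (X - C s) with hB
  have hAd : B ∣ F := by
    have h4 : T.val ≤ F.roots := by
      rw [Multiset.le_iff_subset T.nodup]
      intro s hs
      rw [mem_roots hFm.ne_zero]
      exact hT s hs
    exact (Multiset.prod_X_sub_C_dvd_iff_le_roots hFm.ne_zero T.val).mpr h4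
  obtain ⟨G, hG⟩ := hAd
  have hAm : B.Monic := monic_prod_of_monic _ _ fun z _ => monic_X_sub_C z
  have hGm : G.Monic := hAm.of_mul_monic_left (hG ▸ hFm)
  have hdeg : B.natDegree + G.natDegree = Q.natDegree := by
    rw [← h3, hG, hAm.natDegree_mul hGm]
  have hn : (derivative F).natDegree ≤ (derivative Q).natDegree := by
    rw [hF, derivative_map]
    exact natDegree_map_le
  have h6 := resultant_mul_left B G (derivative F) (derivative Q).natDegree hn
  rw [← hG, hdeg, h1] at h6
  have hAs : B.Splits := Splits.prod fun s _ => Splits.X_sub_C s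
  have h7 := resultant_eq_prod_eval B (derivative F) (derivative Q).natDegree hn hAs
  have hroots : B.roots = T.val := roots_prod_X_sub_C T
  rw [hroots, hAm.leadingCoeff, one_pow, one_mul] at h7
  have h8 : (T.val.map (derivative F).eval).prod = ∏ s ∈ T, (derivative F).eval s := rfl
  rw [h8] at h7
  have h9 : π ^ coll π T ∣ ∏ s ∈ T, (derivative F).eval s := by
    unfold coll
    rw [← Finset.prod_pow_eq_pow_sum]
    refine Finset.prod_dvd_prod_of_dvd _ _ fun s hs => ?_
    have h10 : (derivative F).eval s = (∏ w ∈ T.erase s, (s - w)) * G.eval s := by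
      rw [hG, derivative_mul, eval_add, eval_mul, eval_mul]
      have h11 : B.eval s = 0 := by
        rw [hB, eval_prod]
        exact Finset.prod_eq_zero hs (by simp)
      rw [h11, zero_mul, add_zero, hB, eval_deriv_prod' T hs]
    rw [h10]
    refine Dvd.dvd.mul_right ?_ _
    refine dvd_trans ?_ (Finset.prod_dvd_prod_of_subset ((T.erase s).filter fun w => π ∣ s - w)
      (T.erase s) (fun w => s - w) (Finset.filter_subset _ _))
    rw [← Finset.prod_const]
    exact Finset.prod_dvd_prod_of_dvd _ _ fun w hw => (Finset.mem_filter.mp hw).2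
  have h12 : (r : A) = φ r := rfl
  rw [h12, h6, h7]
  exact h9.mul_right _

/-- valuations of integers -/
lemma val_le [CharZero A] {π : A} (hπ : ¬ IsUnit π) {p e : ℕ} (hp : p.Prime) (he : 1 ≤ e)
    (hassoc : Associated ((p : ℕ) : A) (π ^ e)) {r : ℤ} (hr : r ≠ 0) {c : ℕ}
    (h : π ^ c ∣ (r : A)) : c ≤ e * padicValInt p r := by
  have : Fact p.Prime := ⟨hp⟩
  by_contra hcon
  push Not at hcon
  set v := padicValInt p r with hv
  have hp0 : ((p : ℕ) : A) ≠ 0 := by exact_mod_cast hp.ne_zero
  have hπ0 : π ≠ 0 := by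
    intro h0
    rw [h0, zero_pow (by omega)] at hassoc
    exact hp0 (associated_zero_iff_eq_zero _ |>.mp hassoc)
  have hπp : π ∣ ((p : ℕ) : A) := (dvd_pow_self π (by omega)).trans hassoc.dvd'
  obtain ⟨u, hu⟩ : ((p : ℤ) ^ v) ∣ r := padicValInt_dvd r
  have hpu : ¬ (p : ℤ) ∣ u := by
    intro ⟨w, hw⟩
    have h1 : (p : ℤ) ^ (v + 1) ∣ r := ⟨w, by rw [hu, hw, pow_succ]; ring⟩
    rw [padicValInt_dvd_iff] at h1
    rcases h1 with h1 | h1
    · exact hr h1
    · omega
  have hcop : IsCoprime u (p : ℤ) := by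
    have hprime : Prime (p : ℤ) := Nat.prime_iff_prime_int.mp hp
    exact (hprime.irreducible.coprime_iff_not_dvd.mpr hpu).symm
  have hπu : π ∣ (u : A) := by
    have h1 : π ^ (e * v + 1) ∣ (r : A) := (pow_dvd_pow π (by omega)).trans h
    have h2 : (r : A) = ((p : ℕ) : A) ^ v * (u : A) := by
      rw [hu]; push_cast; ring
    obtain ⟨w, hw⟩ := hassoc
    have h3 : π ^ (e * v) = ((p : ℕ) : A) ^ v * (w : A) ^ v := by
      rw [pow_mul, ← hw, mul_pow]
    rw [h2, pow_succ] at h1
    obtain ⟨x, hx⟩ := h1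
    have h4 : ((p : ℕ) : A) ^ v * (u : A) = ((p : ℕ) : A) ^ v * (π * ((w : A) ^ v * x)) := by
      rw [hx, h3]; ring
    have h5 := mul_left_cancel₀ (pow_ne_zero v hp0) h4
    exact ⟨_, h5⟩
  obtain ⟨a, b, hab⟩ := hcop
  apply hπ
  apply isUnit_of_dvd_one
  have h6 : (1 : A) = (a : A) * (u : A) + (b : A) * ((p : ℕ) : A) := by
    have := congrArg (fun z : ℤ => (z : A)) hab
    push_cast at this
    rw [← this]
  rw [h6]
  exact dvd_add (hπu.mul_left _) (hπp.mul_left _)

open Classical in
/-- collisions by counting classes -/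
lemma sq_le_coll {π : A} (hπ : ¬ IsUnit π) [Finite (A ⧸ Ideal.span {π})] (T : Finset A)
    (hu : ∀ s ∈ T, IsUnit s) :
    (T.card : ℝ) ^ 2 ≤ ((Nat.card (A ⧸ Ideal.span {π}) : ℝ) - 1) * (coll π T + T.card) := by
  have : Fintype (A ⧸ Ideal.span {π}) := Fintype.ofFinite _
  set f : A → A ⧸ Ideal.span {π} := fun a => Ideal.Quotient.mk (Ideal.span {π}) a with hf
  have hfeq : ∀ s w : A, f s = f w ↔ π ∣ s - w := by
    intro s w
    rw [hf]
    dsimp only
    rw [Ideal.Quotient.eq, Ideal.mem_span_singleton]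
  have hne : ∀ s ∈ T, f s ≠ 0 := by
    intro s hs h0
    rw [hf] at h0
    dsimp only at h0
    rw [Ideal.Quotient.eq_zero_iff_mem, Ideal.mem_span_singleton] at h0
    exact hπ (isUnit_of_dvd_unit h0 (hu s hs))
  set I : Finset (A ⧸ Ideal.span {π}) := Finset.univ.erase 0 with hI
  have hmaps : ∀ s ∈ T, f s ∈ I := fun s hs => by
    rw [hI, Finset.mem_erase]; exact ⟨hne s hs, Finset.mem_univ _⟩
  have hIcard : (I.card : ℝ) = (Nat.card (A ⧸ Ideal.span {π}) : ℝ) - 1 := by
    rw [hI, Finset.card_erase_of_mem (Finset.mem_univ _), Finset.card_univ, Nat.card_eq_fintype_card]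
    rw [Nat.cast_sub Fintype.card_pos]
    simp
  have h1 : (T.card : ℝ) = ∑ b ∈ I, ((T.filter fun s => f s = b).card : ℝ) := by
    have := Finset.card_eq_sum_card_fiberwise (f := f) (s := T) (t := I) (fun s hs => hmaps s hs)
    rw [this]; push_cast; rfl
  have h2 : ((∑ s ∈ T, (T.filter fun w => f w = f s).card : ℕ) : ℝ) =
      ∑ b ∈ I, ((T.filter fun s => f s = b).card : ℝ) ^ 2 := by
    rw [← Finset.sum_fiberwise_of_maps_to (s := T) (t := I) (g := f) hmaps]
    push_cast
    refine Finset.sum_congr rfl fun b hb => ?_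
    have h3 : ∀ s ∈ T.filter (fun s => f s = b),
        ((T.filter fun w => f w = f s).card : ℝ) = ((T.filter fun s => f s = b).card : ℝ) := by
      intro s hs
      rw [(Finset.mem_filter.mp hs).2]
    rw [Finset.sum_congr rfl h3, Finset.sum_const, nsmul_eq_mul, sq]
  have h3 : (∑ s ∈ T, (T.filter fun w => f w = f s).card) = coll π T + T.card := by
    unfold coll
    rw [Finset.card_eq_sum_ones, ← Finset.sum_add_distrib]
    refine Finset.sum_congr rfl fun s hs => ?_
    have h4 : T.filter (fun w => f w = f s) =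
        insert s ((T.erase s).filter fun w => π ∣ s - w) := by
      ext w
      rw [Finset.mem_filter, Finset.mem_insert, Finset.mem_filter, Finset.mem_erase]
      constructor
      · rintro ⟨hw, hfw⟩
        by_cases hws : w = s
        · exact Or.inl hws
        · exact Or.inr ⟨⟨hws, hw⟩, (hfeq s w).mp hfw.symm⟩
      · rintro (rfl | ⟨⟨_, hw⟩, hd⟩)
        · exact ⟨hs, rfl⟩
        · exact ⟨hw, ((hfeq s w).mpr hd).symm⟩
    rw [h4, Finset.card_insert_of_notMem (by simp)]
  rw [h3] at h2
  have h5 := sq_sum_le_card_mul_sum_sq (s := I) (f := fun b => ((T.filter fun s => f s = b).card : ℝ))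
  rw [← h1, hIcard, ← h2] at h5
  push_cast at h5
  exact h5

end

/-- several primes at once -/
lemma log_ge {ι : Type*} (s : Finset ι) (p : ι → ℕ) (hp : ∀ i ∈ s, (p i).Prime)
    (hinj : Set.InjOn p s) {r : ℤ} (hr : r ≠ 0) :
    ∑ i ∈ s, (padicValInt (p i) r : ℝ) * Real.log (p i) ≤ Real.log |(r : ℝ)| := by
  have h1 : ∏ i ∈ s, ((p i : ℤ) ^ padicValInt (p i) r) ∣ r := by
    refine Finset.prod_dvd_of_coprime ?_ fun i hi => ?_
    · intro i hi j hj hij
      have : (p i).Coprime (p j) := (Nat.coprime_primes (hp i hi) (hp j hj)).mpr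
        fun h => hij (hinj hi hj h)
      exact (Nat.isCoprime_iff_coprime.mpr this).pow
    · exact padicValInt_dvd r
  have h2 : ∏ i ∈ s, ((p i : ℤ) ^ padicValInt (p i) r) ≤ |r| :=
    Int.le_of_dvd (abs_pos.mpr hr) ((dvd_abs _ _).mpr h1)
  have h3 : ∏ i ∈ s, ((p i : ℝ) ^ padicValInt (p i) r) ≤ |(r : ℝ)| := by exact_mod_cast h2
  have h4 : ∀ i ∈ s, (0 : ℝ) < (p i : ℝ) ^ padicValInt (p i) r := fun i hi => by
    have : (0 : ℝ) < p i := by exact_mod_cast (hp i hi).pos
    positivity
  have h5 := Real.log_le_log (Finset.prod_pos h4) h3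
  rw [Real.log_prod fun i hi => (h4 i hi).ne'] at h5
  simpa [Real.log_pow] using h5

end Pool.Agent.Y642.LZ
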