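import Mathlib
import Pool.Agent.H389R3.LR4
import Pool.Agent.Y642.LZ.A
import Pool.Agent.Y642.LZ.B

/-!
# The inequality for the conjugates of `α, α ^ 2, ..., α ^ k` at several places
-/

set_option autoImplicit false

open Finset Polynomial Module

universe u

namespace Pool.Agent.Y642.LZ

open Pool.Agent.H388SL Pool.Agent.H389R3.LR Pool.Agent.H389R3.LP

/-- A local place above a prime number `p`: an integral domain `A` of characteristic zero with an
element `π` which is not a unit, such that `p` is a unit times `π ^ e` and `A / π` is finite.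
Example: the ring of integers of a finite extension of `ℚ_p` with ramification index `e`, with a
uniformizer `π`. -/
structure Loc : Type (u + 1) where
  p : ℕ
  hp : p.Prime
  A : Type u
  [ring : CommRing A]
  [dom : IsDomain A]
  [char0 : CharZero A]
  π : A
  e : ℕ
  he : 1 ≤ e
  notUnit : ¬ IsUnit π
  assoc : Associated ((p : ℕ) : A) (π ^ e)
  [fin : Finite (A ⧸ Ideal.span {π})]

attribute [instance] Loc.ring Loc.dom Loc.char0 Loc.fin

/-- the number of residue classes modulo `π` -/
noncomputable def Loc.q (D : Loc.{u}) : ℕ := Nat.card (D.A ⧸ Ideal.span {D.π})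

lemma Loc.two_le_q (D : Loc.{u}) : 2 ≤ D.q := by
  unfold Loc.q
  have : Nontrivial (D.A ⧸ Ideal.span {D.π}) := by
    apply Ideal.Quotient.nontrivial_iff.mpr
    rw [Ne, Ideal.span_singleton_eq_top]
    exact D.notUnit
  exact Nat.succ_le_of_lt Finite.one_lt_card

section

variable {K : Type*} [Field K] [NumberField K] {A : Type u} [CommRing A] [IsDomain A] [CharZero A]

/-- the conjugates in `A` -/
noncomputable def aRoots (A : Type u) [CommRing A] [IsDomain A] [CharZero A] (β : K) : Finset A := by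
  classical exact ((minpoly ℤ β).map (Int.castRingHom A)).roots.toFinset

lemma mem_aRoots {β : K} (hβ : IsIntegral ℤ β) {x : A} :
    x ∈ aRoots A β ↔ aeval x (minpoly ℤ β) = 0 := by
  classical
  unfold aRoots
  rw [Multiset.mem_toFinset, mem_roots ((minpoly.monic hβ).map _).ne_zero, IsRoot.def, eval_map]
  rfl

lemma pow_mem_aRoots {β : K} (hβ : IsIntegral ℤ β) {x : A} (hx : x ∈ aRoots A β) (m : ℕ) :
    x ^ m ∈ aRoots A (β ^ m) := by
  rw [mem_aRoots hβ] at hx
  rw [mem_aRoots (hβ.pow m)]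
  have h1 : aeval β (expand ℤ m (minpoly ℤ (β ^ m))) = 0 := by
    rw [expand_aeval, minpoly.aeval]
  obtain ⟨g, hg⟩ := minpoly.isIntegrallyClosed_dvd hβ h1
  rw [← expand_aeval, hg, map_mul, hx, zero_mul]

lemma conjSet_eq_of_aRoots {β γ : K} (hβ : IsIntegral ℤ β) (hγ : IsIntegral ℤ γ) {x : A}
    (h1 : x ∈ aRoots A β) (h2 : x ∈ aRoots A γ) : conjSet β = conjSet γ := by
  rw [mem_aRoots hβ] at h1
  rw [mem_aRoots hγ] at h2
  set F := FractionRing A with hF
  have hinjA : Function.Injective (algebraMap A F) := IsFractionRing.injective A F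
  have : CharZero F := charZero_of_injective_algebraMap hinjA
  have key : ∀ δ : K, IsIntegral ℤ δ → aeval x (minpoly ℤ δ) = 0 →
      aeval (algebraMap A F x) (minpoly ℚ δ) = 0 := by
    intro δ hδ h
    rw [minpoly.isIntegrallyClosed_eq_field_fractions' ℚ hδ, aeval_def, eval₂_map]
    have h3 := Polynomial.hom_eval₂ (minpoly ℤ δ) (algebraMap ℤ A) (algebraMap A F) x
    rw [← aeval_def, h, map_zero] at h3
    rw [h3]
    congr 1
    exact RingHom.ext_int _ _
  have h3 := key β hβ h1
  have h4 := key γ hγ h2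
  have hβQ : IsIntegral ℚ β := Algebra.IsIntegral.isIntegral β
  have hγQ : IsIntegral ℚ γ := Algebra.IsIntegral.isIntegral γ
  have heq : minpoly ℚ β = minpoly ℚ γ := by
    by_contra hne
    have hcop : IsCoprime (minpoly ℚ β) (minpoly ℚ γ) := by
      rw [(minpoly.irreducible hβQ).coprime_iff_not_dvd]
      intro h
      have h5 : Associated (minpoly ℚ β) (minpoly ℚ γ) :=
        (minpoly.irreducible hβQ).associated_of_dvd (minpoly.irreducible hγQ) h
      exact hne (eq_of_monic_of_associated (minpoly.monic hβQ) (minpoly.monic hγQ) h5)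
    obtain ⟨a, b, hab⟩ := hcop
    have h5 := congrArg (aeval (algebraMap A F x)) hab
    rw [map_add, map_mul, map_mul, h3, h4, mul_zero, mul_zero, add_zero, map_one] at h5
    exact zero_ne_one h5
  apply Finset.coe_injective
  rw [conjSet_coe, conjSet_coe, heq]

lemma isUnit_of_aRoots {β : K} (hβ : IsIntegral ℤ β) (hu : IsUnit ((minpoly ℤ β).coeff 0)) {x : A}
    (hx : x ∈ aRoots A β) : IsUnit x := by
  rw [mem_aRoots hβ] at hx
  have h1 : x ∣ ((minpoly ℤ β).map (Int.castRingHom A)).eval 0 := by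
    have h2 := Polynomial.sub_dvd_eval_sub (0 : A) x ((minpoly ℤ β).map (Int.castRingHom A))
    have h3 : ((minpoly ℤ β).map (Int.castRingHom A)).eval x = 0 := by
      rw [eval_map]; exact hx
    rw [h3, sub_zero, zero_sub] at h2
    exact (neg_dvd.mp h2)
  rw [← coeff_zero_eq_eval_zero, coeff_map] at h1
  exact isUnit_of_dvd_unit h1 (hu.map _)

open Classical in
/-- the powers of some conjugates in `A` -/
noncomputable def powSet {A : Type u} [CommRing A] (Z : Finset A) (k : ℕ) : Finset A :=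
  (Finset.Icc 1 k ×ˢ Z).image (fun x => x.2 ^ x.1)

/-- no two elements of `Z` differ by a root of unity only -/
def TorsionFree {A : Type u} [CommRing A] (Z : Finset A) : Prop :=
  ∀ x ∈ Z, ∀ y ∈ Z, ∀ m : ℕ, 1 ≤ m → x ^ m = y ^ m → x = y

lemma powSet_card {α : K} (hα : IsIntegral ℤ α) (h0 : α ≠ 0)
    (hroot : ∀ n : ℕ, 0 < n → α ^ n ≠ 1) {Z : Finset A} (hZ : ∀ x ∈ Z, x ∈ aRoots A α)
    (hZt : TorsionFree Z) (k : ℕ) : (powSet Z k).card = k * Z.card := by
  classical
  have h1 : (Finset.Icc 1 k ×ˢ Z).card = k * Z.card := by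
    rw [Finset.card_product, Nat.card_Icc]; simp
  rw [← h1]
  unfold powSet
  refine Finset.card_image_of_injOn ?_
  rintro ⟨m, x⟩ hx ⟨l, y⟩ hy hxy
  rw [Finset.mem_coe, Finset.mem_product, Finset.mem_Icc] at hx hy
  dsimp only at hx hy hxy
  have hml : m = l := by
    by_contra hne
    have e1 := pow_mem_aRoots hα (hZ x hx.2) m
    have e2 := pow_mem_aRoots hα (hZ y hy.2) l
    rw [← hxy] at e2
    have e3 := conjSet_eq_of_aRoots (hα.pow m) (hα.pow l) e1 e2
    rcases lt_or_gt_of_ne hne with h | h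
    · exact conj_disj hα h0 hroot h e3
    · exact conj_disj hα h0 hroot h e3.symm
  subst hml
  rw [hZt x hx.2 y hy.2 m hx.1.1 hxy]

end

/-- the sum of the logarithms of the distances is the logarithm of the discriminant -/
lemma disc_sum [DecidableEq ℂ] (Q : ℤ[X]) (Z : Finset ℂ)
    (h : Q.map (Int.castRingHom ℂ) = ∏ z ∈ Z, (X - C z)) :
    ((resultant Q (derivative Q) Q.natDegree (derivative Q).natDegree : ℤ)) ≠ 0 ∧
    ∑ z ∈ Z, ∑ w ∈ Z, (if z = w then 0 else Real.log ‖z - w‖) =
      Real.log |((resultant Q (derivative Q) Q.natDegree (derivative Q).natDegree : ℤ) : ℝ)| := by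
  have h1 := disc_eq Q Z h
  set r : ℤ := resultant Q (derivative Q) Q.natDegree (derivative Q).natDegree with hr
  have hne : ∀ z ∈ Z, ∀ w ∈ Z.erase z, ‖z - w‖ ≠ 0 := by
    intro z _ w hw
    rw [norm_ne_zero_iff]
    exact sub_ne_zero.mpr (Finset.ne_of_mem_erase hw).symm
  have h3 : Real.log (∏ z ∈ Z, ∏ w ∈ Z.erase z, ‖z - w‖) =
      ∑ z ∈ Z, ∑ w ∈ Z, (if z = w then 0 else Real.log ‖z - w‖) := by
    rw [Real.log_prod fun z hz => Finset.prod_ne_zero_iff.mpr (hne z hz)]
    refine Finset.sum_congr rfl fun z hz => ?_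
    rw [Real.log_prod (hne z hz), ← Finset.add_sum_erase Z _ hz, if_pos rfl, zero_add]
    refine Finset.sum_congr rfl fun w hw => ?_
    rw [if_neg (Finset.ne_of_mem_erase hw).symm]
  refine ⟨?_, ?_⟩
  · intro h4
    have h5 : ∏ z ∈ Z, ∏ w ∈ Z.erase z, ‖z - w‖ ≠ 0 :=
      Finset.prod_ne_zero_iff.mpr fun z hz => Finset.prod_ne_zero_iff.mpr (hne z hz)
    rw [h1, h4] at h5
    simp at h5
  · rw [← h3, h1]

end Pool.Agent.Y642.LZ
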