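import Mathlib
import Pool.Agent.Y642.LZ.C

/-!
# The main inequality
-/

set_option autoImplicit false

open Finset Polynomial Module

universe u

namespace Pool.Agent.Y642.LZ

open Pool.Agent.H388SL Pool.Agent.H389R3.LR Pool.Agent.H389R3.LP

variable {K : Type*} [Field K] [NumberField K]

/-- the contribution of one place -/
lemma place_bound {α : K} (hα : IsIntegral ℤ α) (h0 : α ≠ 0)
    (hroot : ∀ n : ℕ, 0 < n → α ^ n ≠ 1) (hu : IsUnit ((minpoly ℤ α).coeff 0))
    (D : Loc.{u}) {Y : Finset D.A} (hY : ∀ x ∈ Y, x ∈ aRoots D.A α) (hYt : TorsionFree Y)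
    (k : ℕ) (Q : ℤ[X]) (hQm : Q.Monic)
    (hQ : Q = ∏ m ∈ Finset.Icc 1 k, minpoly ℤ (α ^ m)) {r : ℤ}
    (hr : r = resultant Q (derivative Q) Q.natDegree (derivative Q).natDegree) (hr0 : r ≠ 0) :
    ((k : ℝ) ^ 2 * ((Y.card : ℝ) ^ 2 / ((D.q : ℝ) - 1)) -
      k * Y.card) / D.e * Real.log D.p ≤
      (padicValInt D.p r : ℝ) * Real.log D.p := by
  classical
  set T := powSet Y k with hT
  have hTroot : ∀ x ∈ T, (Q.map (Int.castRingHom D.A)).eval x = 0 := by
    intro x hx
    rw [hT] at hx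
    unfold powSet at hx
    rw [Finset.mem_image] at hx
    obtain ⟨⟨m, y⟩, hmy, rfl⟩ := hx
    rw [Finset.mem_product] at hmy
    have h1 := pow_mem_aRoots hα (hY _ hmy.2) m
    rw [mem_aRoots (hα.pow m)] at h1
    rw [hQ, Polynomial.map_prod, eval_prod]
    refine Finset.prod_eq_zero hmy.1 ?_
    rw [eval_map]
    exact h1
  have hTunit : ∀ x ∈ T, IsUnit x := by
    intro x hx
    rw [hT] at hx
    unfold powSet at hx
    rw [Finset.mem_image] at hx
    obtain ⟨⟨m, y⟩, hmy, rfl⟩ := hx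
    rw [Finset.mem_product] at hmy
    exact (isUnit_of_aRoots hα hu (hY _ hmy.2)).pow m
  have h1 := dvd_res_gen D.π Q hQm T hTroot
  rw [← hr] at h1
  have h2 := val_le D.notUnit D.hp D.he D.assoc hr0 h1
  have h3 := sq_le_coll D.notUnit T hTunit
  have h4 := powSet_card (A := D.A) hα h0 hroot hY hYt k
  rw [← hT] at h4
  have hq2 : (2 : ℝ) ≤ D.q := by exact_mod_cast D.two_le_q
  have hq : (Nat.card (D.A ⧸ Ideal.span {D.π}) : ℝ) = D.q := rfl
  rw [hq] at h3
  have hq1 : (0:ℝ) < (D.q : ℝ) - 1 := by linarith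
  have he0 : (0:ℝ) < D.e := by exact_mod_cast D.he
  have hp1 : (1:ℝ) < D.p := by exact_mod_cast D.hp.one_lt
  have hlog : 0 < Real.log D.p := Real.log_pos hp1
  have h4' : (T.card : ℝ) = k * Y.card := by exact_mod_cast h4
  have h7 : (k : ℝ) ^ 2 * ((Y.card : ℝ) ^ 2 / ((D.q : ℝ) - 1)) - k * Y.card ≤
      (coll D.π T : ℝ) := by
    have h8 : (k : ℝ) ^ 2 * ((Y.card : ℝ) ^ 2 / ((D.q : ℝ) - 1)) ≤
        coll D.π T + T.card := by
      rw [← mul_div_assoc, div_le_iff₀ hq1]
      rw [h4'] at h3 ⊢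
      nlinarith
    rw [h4'] at h8
    linarith
  have h2' : (coll D.π T : ℝ) ≤ D.e * padicValInt D.p r := by exact_mod_cast h2
  refine mul_le_mul_of_nonneg_right ?_ hlog.le
  rw [div_le_iff₀ he0]
  linarith

theorem main_ineq {α : K} (hα : IsIntegral ℤ α) (h0 : α ≠ 0)
    (hroot : ∀ n : ℕ, 0 < n → α ^ n ≠ 1) (hu : IsUnit ((minpoly ℤ α).coeff 0))
    {ι : Type*} (s : Finset ι) (D : ι → Loc.{u}) (hinj : Set.InjOn (fun i => (D i).p) s)
    (Y : ∀ i, Finset (D i).A) (hY : ∀ i ∈ s, ∀ x ∈ Y i, x ∈ aRoots (D i).A α)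
    (hYt : ∀ i ∈ s, TorsionFree (Y i))
    (k : ℕ) (hk : 1 ≤ k) :
    (k : ℝ) * (((posPart (conjSet α)).card : ℝ) ^ 2 / 24 +
      ∑ i ∈ s, ((Y i).card : ℝ) ^ 2 / (((D i).q : ℝ) - 1) /
        (D i).e * Real.log (D i).p) ≤
      ∑ i ∈ s, ((Y i).card : ℝ) / (D i).e * Real.log (D i).p +
      finrank ℚ K * (2 + Real.log (finrank ℚ K * k)) + 3 * finrank ℚ K * k ^ 2 * lam α := by
  classical
  set Z : Finset ℂ := (Finset.Icc 1 k).biUnion fun m => conjSet (α ^ m) with hZ
  set n := finrank ℚ K with hn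
  have hn0 : 0 < n := finrank_pos
  have hdisj : Set.PairwiseDisjoint (↑(Finset.Icc 1 k)) (fun m => conjSet (α ^ m)) := by
    intro m _ l _ hml
    exact conj_disjoint hα h0 hroot hml
  have hZ0 : (0:ℂ) ∉ Z := by
    intro h
    rw [hZ, Finset.mem_biUnion] at h
    obtain ⟨m, _, hm⟩ := h
    obtain ⟨σ, hσ⟩ := mem_conjSet.mp hm
    rw [map_pow] at hσ
    have h2 : σ α = 0 := by
      exact pow_eq_zero_iff (M₀ := ℂ) (n := m) (by
        rintro rfl
        simp at hσ) |>.mp hσ
    exact h0 ((map_eq_zero σ).mp h2)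
  set Q : ℤ[X] := ∏ m ∈ Finset.Icc 1 k, minpoly ℤ (α ^ m) with hQ
  have hQm : Q.Monic := monic_prod_of_monic _ _ fun m _ => minpoly.monic (hα.pow m)
  have hQmap : Q.map (Int.castRingHom ℂ) = ∏ z ∈ Z, (X - C z) := by
    rw [hQ, Polynomial.map_prod, hZ, Finset.prod_biUnion hdisj]
    exact Finset.prod_congr rfl fun m _ => minpolyZ_map (hα.pow m)
  obtain ⟨hr0, hdsum⟩ := disc_sum Q Z hQmap
  have hp := one_le_prod_of Q Z hQmap hZ0
  have hprod : 0 ≤ ∑ z ∈ Z, Real.log ‖z‖ := by
    rw [← Real.log_prod fun z hz => norm_ne_zero_iff.mpr fun h => hZ0 (h ▸ hz)]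
    exact Real.log_nonneg hp
  have hZne : Z.Nonempty := by
    have hne : (Finset.univ : Finset (K →ₐ[ℚ] ℂ)).Nonempty := by
      rw [← Finset.card_pos, Finset.card_univ, AlgHom.card]
      exact finrank_pos
    obtain ⟨σ, _⟩ := hne
    exact ⟨σ (α ^ 1), Finset.mem_biUnion.mpr ⟨1, Finset.mem_Icc.mpr ⟨le_rfl, hk⟩,
      mem_conjSet.mpr ⟨σ, rfl⟩⟩⟩
  -- the local contributions
  set r : ℤ := resultant Q (derivative Q) Q.natDegree (derivative Q).natDegree with hr
  set W : ℝ := ∑ i ∈ s, ((Y i).card : ℝ) / (D i).e * Real.log (D i).p with hW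
  set S : ℝ := ∑ i ∈ s, ((Y i).card : ℝ) ^ 2 /
    (((D i).q : ℝ) - 1) / (D i).e * Real.log (D i).p with hS
  have hdisc : (k : ℝ) ^ 2 * S - k * W ≤
      ∑ z ∈ Z, ∑ w ∈ Z, (if z = w then 0 else Real.log ‖z - w‖) := by
    rw [hdsum]
    refine le_trans ?_ (log_ge s (fun i => (D i).p) (fun i _ => (D i).hp) hinj hr0)
    rw [hS, hW, Finset.mul_sum, Finset.mul_sum, ← Finset.sum_sub_distrib]
    refine Finset.sum_le_sum fun i hi => ?_
    refine le_trans (le_of_eq ?_) (place_bound hα h0 hroot hu (D i) (hY i hi) (hYt i hi) k Q hQm hQ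
      hr hr0)
    ring
  have hmain := count_all Z hZ0 hZne hdisc hprod
  -- the number of elements
  have hcard : Z.card ≤ n * k := by
    rw [hZ]
    refine Finset.card_biUnion_le.trans ?_
    refine (Finset.sum_le_sum fun m _ => card_conjSet_le (α ^ m)).trans ?_
    rw [Finset.sum_const, Nat.card_Icc, smul_eq_mul, ← hn]
    simp [mul_comm]
  -- the Mahler measure
  have hlam : ∑ z ∈ Z, Real.log (max 1 ‖z‖) ≤ k ^ 2 * lam α := by
    rw [hZ, Finset.sum_biUnion hdisj]
    have h1 : ∀ m ∈ Finset.Icc 1 k, ∑ z ∈ conjSet (α ^ m), Real.log (max 1 ‖z‖) ≤ k * lam α := by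
      intro m hm
      refine (sum_conjSet_le (α ^ m) _ fun z => Real.log_nonneg (le_max_left _ _)).trans ?_
      have h2 := lam_pow α m
      unfold lam at h2
      rw [h2]
      have h3 : (m:ℝ) ≤ k := by exact_mod_cast (Finset.mem_Icc.mp hm).2
      exact mul_le_mul_of_nonneg_right h3 (lam_nonneg α)
    refine (Finset.sum_le_sum h1).trans ?_
    rw [Finset.sum_const, Nat.card_Icc, nsmul_eq_mul]
    simp only [Nat.add_sub_cancel]
    apply le_of_eq
    ring
  -- the number of positive real elements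
  have hpos : k * (posPart (conjSet α)).card ≤ (posPart Z).card := by
    have h1 : (Finset.Icc 1 k).biUnion (fun m => posPart (conjSet (α ^ m))) ⊆ posPart Z := by
      intro z hz
      rw [Finset.mem_biUnion] at hz
      obtain ⟨m, hm, hz⟩ := hz
      unfold H389R3.LR.posPart at hz ⊢
      rw [Finset.mem_filter] at hz ⊢
      exact ⟨Finset.mem_biUnion.mpr ⟨m, hm, hz.1⟩, hz.2⟩
    have h2 : Set.PairwiseDisjoint (↑(Finset.Icc 1 k)) (fun m => posPart (conjSet (α ^ m))) := by
      intro m _ l _ hml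
      refine Finset.disjoint_of_subset_left ?_ (Finset.disjoint_of_subset_right ?_
        (conj_disjoint hα h0 hroot hml))
      · unfold H389R3.LR.posPart; exact Finset.filter_subset _ _
      · unfold H389R3.LR.posPart; exact Finset.filter_subset _ _
    refine le_trans ?_ (Finset.card_le_card h1)
    rw [Finset.card_biUnion (fun m hm l hl hml => h2 hm hl hml)]
    calc k * (posPart (conjSet α)).card = ∑ m ∈ Finset.Icc 1 k, (posPart (conjSet α)).card := by
          rw [Finset.sum_const, Nat.card_Icc]; simp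
      _ ≤ _ := Finset.sum_le_sum fun m hm => card_posPart_pow (Finset.mem_Icc.mp hm).1
  have hpos' : ((k : ℝ) * (posPart (conjSet α)).card) ^ 2 ≤ ((posPart Z).card : ℝ) ^ 2 := by
    have : (k : ℝ) * (posPart (conjSet α)).card ≤ (posPart Z).card := by exact_mod_cast hpos
    exact pow_le_pow_left₀ (by positivity) this 2
  have hcard' : (Z.card : ℝ) ≤ n * k := by exact_mod_cast hcard
  have hnk : (1:ℝ) ≤ n * k := by
    have : 1 ≤ n * k := Nat.mul_pos hn0 hk
    exact_mod_cast this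
  have hZc : 0 < Z.card := Finset.card_pos.mpr hZne
  have hlogle : Real.log Z.card ≤ Real.log (n * k) :=
    Real.log_le_log (by exact_mod_cast hZc) hcard'
  have hl0 := lam_nonneg α
  have hs0 : 0 ≤ ∑ z ∈ Z, Real.log (max 1 ‖z‖) :=
    Finset.sum_nonneg fun z _ => Real.log_nonneg (le_max_left _ _)
  have hlc : 0 ≤ Real.log Z.card := Real.log_natCast_nonneg _
  have h1 : 3 * (Z.card : ℝ) * (∑ z ∈ Z, Real.log (max 1 ‖z‖)) ≤
      3 * (n * k) * (k ^ 2 * lam α) := by
    have := mul_le_mul (mul_le_mul_of_nonneg_left hcard' (by norm_num : (0:ℝ) ≤ 3)) hlam hs0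
      (by positivity)
    exact this
  have h2 : (Z.card : ℝ) * (2 + Real.log Z.card) ≤ (n * k) * (2 + Real.log (n * k)) := by
    exact mul_le_mul hcard' (by linarith) (by linarith) (by positivity)
  have hk0 : (0:ℝ) < k := by exact_mod_cast hk
  have h3 : (k : ℝ) * ((k : ℝ) * (((posPart (conjSet α)).card : ℝ) ^ 2 / 24 + S)) ≤
      (k : ℝ) * (W + n * (2 + Real.log (n * k)) + 3 * n * k ^ 2 * lam α) := by
    nlinarith
  exact le_of_mul_le_mul_left h3 hk0

section

variable {A : Type u} [CommRing A] [IsDomain A] [CharZero A]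

lemma aRoots_neg {α : K} (hα : IsIntegral ℤ α) {x : A} (hx : x ∈ aRoots A α) :
    -x ∈ aRoots A (-α) := by
  rw [mem_aRoots hα] at hx
  rw [mem_aRoots hα.neg]
  have h1 : aeval α ((minpoly ℤ (-α)).comp (-X)) = 0 := by
    rw [aeval_comp, map_neg, aeval_X, minpoly.aeval]
  obtain ⟨g, hg⟩ := minpoly.isIntegrallyClosed_dvd hα h1
  have h2 : aeval x ((minpoly ℤ (-α)).comp (-X)) = 0 := by
    rw [hg, map_mul, hx, zero_mul]
  rwa [aeval_comp, map_neg, aeval_X] at h2

lemma coeff_zero_neg {α : K} (hα : IsIntegral ℤ α) (hu : IsUnit ((minpoly ℤ α).coeff 0)) :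
    IsUnit ((minpoly ℤ (-α)).coeff 0) := by
  have h1 : aeval (-α) ((minpoly ℤ α).comp (-X)) = 0 := by
    rw [aeval_comp, map_neg, aeval_X, neg_neg, minpoly.aeval]
  obtain ⟨g, hg⟩ := minpoly.isIntegrallyClosed_dvd hα.neg h1
  have h2 := congrArg (Polynomial.eval 0) hg
  rw [eval_comp, eval_neg, eval_X, neg_zero, eval_mul, ← coeff_zero_eq_eval_zero,
    ← coeff_zero_eq_eval_zero, ← coeff_zero_eq_eval_zero] at h2
  exact isUnit_of_dvd_unit (Dvd.intro _ h2.symm) hu

end

/-- the real elements -/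
noncomputable def realPart (Z : Finset ℂ) : Finset ℂ := by
  classical exact Z.filter (fun z => z.im = 0)

lemma lam_neg (α : K) : lam (-α) = lam α := by
  unfold lam
  refine Finset.sum_congr rfl fun σ _ => ?_
  rw [map_neg, norm_neg]

lemma realPart_le {α : K} (h0 : α ≠ 0) :
    (realPart (conjSet α)).card ≤
      (posPart (conjSet α)).card + (posPart (conjSet (-α))).card := by
  classical
  have h1 : realPart (conjSet α) ⊆ posPart (conjSet α) ∪
      (posPart (conjSet (-α))).image (fun z => -z) := by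
    intro z hz
    unfold realPart at hz
    rw [Finset.mem_filter] at hz
    obtain ⟨σ, hσ⟩ := mem_conjSet.mp hz.1
    have hz0 : z ≠ 0 := by
      rw [← hσ]
      exact (map_ne_zero σ).mpr h0
    rw [Finset.mem_union, Finset.mem_image]
    unfold H389R3.LR.posPart
    have hre : z.re ≠ 0 := by
      intro h
      exact hz0 (Complex.ext h hz.2)
    rcases lt_or_gt_of_ne hre with h | h
    · right
      refine ⟨-z, ?_, neg_neg z⟩
      rw [Finset.mem_filter]
      refine ⟨mem_conjSet.mpr ⟨σ, by rw [map_neg, hσ]⟩, ?_, ?_⟩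
      · rw [Complex.neg_re]; linarith
      · rw [Complex.neg_im, hz.2, neg_zero]
    · left
      rw [Finset.mem_filter]
      exact ⟨hz.1, h, hz.2⟩
  refine (Finset.card_le_card h1).trans ((Finset.card_union_le _ _).trans ?_)
  have := Finset.card_image_le (s := posPart (conjSet (-α))) (f := fun z => -z)
  omega

/-- the main inequality with all real conjugates -/
theorem main_real {α : K} (hα : IsIntegral ℤ α) (h0 : α ≠ 0)
    (hroot : ∀ n : ℕ, 0 < n → α ^ n ≠ 1) (hu : IsUnit ((minpoly ℤ α).coeff 0))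
    {ι : Type*} (s : Finset ι) (D : ι → Loc.{u}) (hinj : Set.InjOn (fun i => (D i).p) s)
    (Y : ∀ i, Finset (D i).A) (hY : ∀ i ∈ s, ∀ x ∈ Y i, x ∈ aRoots (D i).A α)
    (hYt : ∀ i ∈ s, TorsionFree (Y i))
    (k : ℕ) (hk : 1 ≤ k) :
    (k : ℝ) * (((realPart (conjSet α)).card : ℝ) ^ 2 / 96 +
      ∑ i ∈ s, ((Y i).card : ℝ) ^ 2 / (((D i).q : ℝ) - 1) /
        (D i).e * Real.log (D i).p) ≤
      ∑ i ∈ s, ((Y i).card : ℝ) / (D i).e * Real.log (D i).p +
      finrank ℚ K * (2 + Real.log (finrank ℚ K * k)) + 3 * finrank ℚ K * k ^ 2 * lam α := by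
  classical
  have hcard := realPart_le h0
  have hk0 : (0:ℝ) ≤ k := Nat.cast_nonneg _
  rcases le_total (posPart (conjSet (-α))).card (posPart (conjSet α)).card with h | h
  · have h1 := main_ineq hα h0 hroot hu s D hinj Y hY hYt k hk
    refine le_trans (mul_le_mul_of_nonneg_left ?_ hk0) h1
    have h2 : (realPart (conjSet α)).card ≤ 2 * (posPart (conjSet α)).card := by omega
    have h3 : ((realPart (conjSet α)).card : ℝ) ≤ 2 * (posPart (conjSet α)).card := by
      exact_mod_cast h2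
    have h4 := pow_le_pow_left₀ (Nat.cast_nonneg _) h3 2
    linarith
  · have hroot' : ∀ n : ℕ, 0 < n → (-α) ^ n ≠ 1 := by
      intro n hn hneg
      refine hroot (n * 2) (by omega) ?_
      rw [pow_mul]
      have h5 : (α ^ n) ^ 2 = ((-α) ^ n) ^ 2 := by
        rw [← pow_mul, ← pow_mul, mul_comm, pow_mul, pow_mul, neg_sq]
      rw [h5, hneg, one_pow]
    have h1 := main_ineq hα.neg (neg_ne_zero.mpr h0) hroot' (coeff_zero_neg hα hu) s D hinj
      (fun i => (Y i).image (fun x => -x)) (by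
        intro i hi x hx
        rw [Finset.mem_image] at hx
        obtain ⟨y, hy, rfl⟩ := hx
        exact aRoots_neg hα (hY i hi y hy)) (by
        intro i hi x hx y hy m hm hxy
        rw [Finset.mem_image] at hx hy
        obtain ⟨x', hx', rfl⟩ := hx
        obtain ⟨y', hy', rfl⟩ := hy
        rw [neg_pow x', neg_pow y'] at hxy
        have h6 : ((-1 : (D i).A) ^ m) ≠ 0 := pow_ne_zero _ (neg_ne_zero.mpr one_ne_zero)
        rw [hYt i hi x' hx' y' hy' m hm (mul_left_cancel₀ h6 hxy)]) k hk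
    have hc : ∀ i, ((Y i).image (fun x => -x)).card = (Y i).card := by
      intro i
      exact Finset.card_image_of_injective _ neg_injective
    simp only [hc, lam_neg] at h1
    refine le_trans (mul_le_mul_of_nonneg_left ?_ hk0) h1
    have h2 : (realPart (conjSet α)).card ≤ 2 * (posPart (conjSet (-α))).card := by omega
    have h3 : ((realPart (conjSet α)).card : ℝ) ≤ 2 * (posPart (conjSet (-α))).card := by
      exact_mod_cast h2
    have h4 := pow_le_pow_left₀ (Nat.cast_nonneg _) h3 2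
    linarith

end Pool.Agent.Y642.LZ
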