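import Mathlib
import Pool.Agent.H389R3.LP4
import Pool.Agent.Y642.LZ.D

/-!
# Transfer to integer polynomials and the choice of the number of powers
-/

set_option autoImplicit false

open Finset Polynomial Module IntermediateField

universe u

namespace Pool.Agent.Y642.LZ

open Pool.Agent.H388SL Pool.Agent.H389R3.LR Pool.Agent.H389R3.LP

/-- the number of real zeros -/
noncomputable def realZeros (f : ℤ[X]) : ℕ := {x : ℝ | aeval x f = 0}.ncard

lemma irr_all (f : ℤ[X]) (hf : Irreducible f) (hm : f.Monic) (hu : IsUnit (f.coeff 0))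
    (hM : 1 < (f.map (Int.castRingHom ℂ)).mahlerMeasure)
    {ι : Type*} (s : Finset ι) (D : ι → Loc.{u}) (hinj : Set.InjOn (fun i => (D i).p) s)
    (Y : ∀ i, Finset (D i).A) (hY : ∀ i ∈ s, ∀ x ∈ Y i, aeval x f = 0)
    (hYt : ∀ i ∈ s, TorsionFree (Y i))
    (k : ℕ) (hk : 1 ≤ k) :
    (k : ℝ) * ((realZeros f : ℝ) ^ 2 / 96 +
      ∑ i ∈ s, ((Y i).card : ℝ) ^ 2 / (((D i).q : ℝ) - 1) / (D i).e * Real.log (D i).p) ≤
      ∑ i ∈ s, ((Y i).card : ℝ) / (D i).e * Real.log (D i).p +
      f.natDegree * (2 + Real.log (f.natDegree * k)) +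
      3 * f.natDegree * k ^ 2 * Real.log (f.map (Int.castRingHom ℂ)).mahlerMeasure := by
  classical
  have hdeg : f.natDegree ≠ 0 := by
    intro h
    have := hm.natDegree_eq_zero.mp h
    exact hf.not_isUnit (this ▸ isUnit_one)
  obtain ⟨z, hz⟩ := IsAlgClosed.exists_aeval_eq_zero ℂ f (by
    intro h
    exact hdeg (natDegree_eq_of_degree_eq_some h))
  have hzi : IsIntegral ℤ z := ⟨f, hm, by rw [← Polynomial.aeval_def]; exact hz⟩
  have hzQ : IsIntegral ℚ z := hzi.tower_top
  have hmin : minpoly ℤ z = f := by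
    have h1 := minpoly.isIntegrallyClosed_dvd hzi hz
    have h2 : Associated (minpoly ℤ z) f :=
      (minpoly.irreducible hzi).associated_of_dvd hf h1
    exact eq_of_monic_of_associated (minpoly.monic hzi) hm h2
  set L := adjoin ℚ {z} with hL
  have hfin : FiniteDimensional ℚ L := adjoin.finiteDimensional hzQ
  have : NumberField L := { to_charZero := inferInstance, to_finiteDimensional := hfin }
  set α : L := AdjoinSimple.gen ℚ z with hα
  have hαz : algebraMap L ℂ α = z := AdjoinSimple.algebraMap_gen ℚ z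
  have hαi : IsIntegral ℤ α := by
    rw [← hαz] at hzi
    exact (isIntegral_algebraMap_iff (algebraMap L ℂ).injective).mp hzi
  have hαc : CInj α := by
    intro σ τ h
    apply adjoin_algHom_ext ℚ (s := {z})
    intro x hx
    rw [Set.mem_singleton_iff] at hx
    subst hx
    exact h
  have hminα : minpoly ℤ α = f := by
    rw [← hmin, ← hαz]
    exact (minpoly.algebraMap_eq (algebraMap L ℂ).injective α).symm
  have hpmap : f.map (Int.castRingHom ℂ) = ∏ τ : L →ₐ[ℚ] ℂ, (X - C (τ α)) := by
    rw [← minpoly_map_eq hαc, minpoly.isIntegrallyClosed_eq_field_fractions' ℚ hαi, hminα,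
      Polynomial.map_map]
    rfl
  have hMM : Real.log (f.map (Int.castRingHom ℂ)).mahlerMeasure = lam α := by
    rw [hpmap]
    have h1 : (∏ τ : L →ₐ[ℚ] ℂ, (X - C (τ α))).mahlerMeasure = ∏ τ : L →ₐ[ℚ] ℂ, max 1 ‖τ α‖ := by
      rw [Finset.prod_eq_multiset_prod, prod_mahlerMeasure_eq_mahlerMeasure_prod, Multiset.map_map,
        Finset.prod_eq_multiset_prod]
      congr 1
      refine Multiset.map_congr rfl fun τ _ => ?_
      rw [Function.comp_apply, mahlerMeasure_X_sub_C]
    rw [h1, Real.log_prod]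
    · rfl
    · intro τ _
      have : (0:ℝ) < max 1 ‖τ α‖ := lt_of_lt_of_le one_pos (le_max_left _ _)
      exact this.ne'
  have hfr : finrank ℚ L = f.natDegree := by
    rw [hL, adjoin.finrank hzQ, minpoly.isIntegrallyClosed_eq_field_fractions' ℚ hzi, hmin]
    exact natDegree_map_eq_of_injective (algebraMap ℤ ℚ).injective_int f
  have hlampos : 0 < lam α := by
    rw [← hMM]; exact Real.log_pos hM
  have hα0 : α ≠ 0 := by
    intro h
    rw [h] at hlampos
    unfold lam at hlampos
    simp at hlampos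
  have hαroot : ∀ n : ℕ, 0 < n → α ^ n ≠ 1 := by
    intro n hn h
    have h1 := lam_pow α n
    rw [h] at h1
    have h2 : lam (1 : L) = 0 := by unfold lam; simp
    rw [h2] at h1
    have h3 : (0:ℝ) < n := by exact_mod_cast hn
    have : 0 < (n:ℝ) * lam α := mul_pos h3 hlampos
    linarith
  -- real zeros
  have hpos : realZeros f ≤ (realPart (conjSet α)).card := by
    unfold realZeros
    rw [← Set.ncard_image_of_injective _ Complex.ofReal_injective, ← Set.ncard_coe_finset]
    refine Set.ncard_le_ncard ?_ (Finset.finite_toSet _)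
    rintro w ⟨x, hx, rfl⟩
    rw [Finset.mem_coe]
    unfold realPart
    rw [Finset.mem_filter]
    refine ⟨?_, by simp⟩
    rw [← Finset.mem_coe, conjSet_coe, mem_rootSet]
    refine ⟨minpoly.ne_zero (hαi.tower_top), ?_⟩
    rw [minpoly.isIntegrallyClosed_eq_field_fractions' ℚ hαi, hminα, aeval_map_algebraMap]
    have h1 : aeval ((x : ℝ) : ℂ) f = ((aeval x f : ℝ) : ℂ) := by
      have := Polynomial.hom_eval₂ f (algebraMap ℤ ℝ) Complex.ofRealHom x
      rw [aeval_def, aeval_def]
      rw [show ((eval₂ (algebraMap ℤ ℝ) x f : ℝ) : ℂ) =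
        Complex.ofRealHom (eval₂ (algebraMap ℤ ℝ) x f) from rfl, this]
      congr 1
    rw [h1, hx, Complex.ofReal_zero]
  have hmain := main_real hαi hα0 hαroot (by rw [hminα]; exact hu) s D hinj Y (by
    intro i hi x hx
    rw [mem_aRoots hαi, hminα]
    exact hY i hi x hx) hYt k hk
  rw [hfr, ← hMM] at hmain
  refine le_trans ?_ hmain
  have hk0 : (0:ℝ) ≤ k := Nat.cast_nonneg _
  apply mul_le_mul_of_nonneg_left _ hk0
  have h2 : (realZeros f : ℝ) ≤ (realPart (conjSet α)).card := by exact_mod_cast hpos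
  have h3 := pow_le_pow_left₀ (Nat.cast_nonneg _) h2 2
  linarith

/-- choice of the number of powers -/
lemma choice {n S W lam : ℝ} (hn : 1 ≤ n) (hW : 0 ≤ W) (hS : n ≤ S)
    (H : ∀ k : ℕ, 1 ≤ k → k * S ≤ W + n * (2 + Real.log (n * k)) + 3 * n * k ^ 2 * lam) :
    min (S / n) (S ^ 2 / (n ^ 2 * (2 + Real.log n) + n * W)) ≤ 80 * lam := by
  have hn0 : 0 < n := by linarith
  have hlogn : 0 ≤ Real.log n := Real.log_nonneg hn
  set s : ℝ := S / n with hs
  set L : ℝ := 2 + Real.log n + W / n with hL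
  have hs1 : 1 ≤ s := by rw [hs, le_div_iff₀ hn0]; linarith
  have hs0 : 0 < s := by linarith
  have hWn : 0 ≤ W / n := by positivity
  have hL2 : 2 ≤ L := by rw [hL]; linarith
  have hL0 : 0 < L := by linarith
  have hSn : S = s * n := by rw [hs]; field_simp
  have e1 : S ^ 2 / (n ^ 2 * (2 + Real.log n) + n * W) = s ^ 2 / L := by
    have e2 : n ^ 2 * (2 + Real.log n) + n * W = n ^ 2 * L := by
      rw [hL]; field_simp
    rw [e2, hSn, div_eq_div_iff (by positivity) (by positivity)]
    ring
  rw [e1]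
  have H' : ∀ k : ℕ, 1 ≤ k → k * s ≤ L + Real.log k + 3 * k ^ 2 * lam := by
    intro k hk
    have hk0 : (0:ℝ) < k := by exact_mod_cast hk
    have h1 := H k hk
    rw [Real.log_mul hn0.ne' hk0.ne', hSn] at h1
    have h2 : n * (k * s) ≤ n * (L + Real.log k + 3 * k ^ 2 * lam) := by
      have e3 : n * L = n * (2 + Real.log n) + W := by rw [hL]; field_simp
      calc n * (k * s) = k * (s * n) := by ring
        _ ≤ _ := h1
        _ = n * L + n * Real.log k + 3 * n * k ^ 2 * lam := by rw [e3]; ring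
        _ = _ := by ring
    exact le_of_mul_le_mul_left h2 hn0
  rcases le_or_gt (4 * L) s with h4 | h4
  · refine (min_le_left _ _).trans ?_
    have h1 := H' 1 le_rfl
    simp only [Nat.cast_one, one_mul, Real.log_one, one_pow, mul_one] at h1
    linarith
  · refine (min_le_right _ _).trans ?_
    set k : ℕ := ⌈4 * L / s⌉₊ with hk
    have hx : 0 < 4 * L / s := by positivity
    have hk1 : 1 ≤ k := Nat.one_le_iff_ne_zero.mpr (Nat.ceil_pos.mpr hx).ne'
    have hkl : 4 * L / s ≤ k := Nat.le_ceil _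
    have hku : (k:ℝ) < 4 * L / s + 1 := Nat.ceil_lt_add_one hx.le
    have hk0 : (0:ℝ) < k := by exact_mod_cast hk1
    have hks : 4 * L ≤ k * s := by
      rw [div_le_iff₀ hs0] at hkl; exact hkl
    have hks2 : k * s ≤ 8 * L := by
      have h5 := mul_lt_mul_of_pos_right hku hs0
      have e : (4 * L / s + 1) * s = 4 * L + s := by field_simp
      rw [e] at h5
      linarith
    have hk8 : (k : ℝ) ≤ 8 * L := by nlinarith
    have hlogk : Real.log k ≤ L + 1.1 := by
      have h5 : Real.log k ≤ Real.log (8 * L) := Real.log_le_log hk0 hk8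
      rw [Real.log_mul (by norm_num) hL0.ne'] at h5
      have h6 : Real.log 8 = 3 * Real.log 2 := by
        rw [show (8:ℝ) = 2 ^ 3 by norm_num, Real.log_pow]; push_cast; ring
      have h7 := Real.log_two_lt_d9
      have h8 := Real.log_le_sub_one_of_pos hL0
      rw [h6] at h5
      linarith
    have h1 := H' k hk1
    have h9 : 0.36 * (k * s) ≤ 3 * k ^ 2 * lam := by linarith
    have h10 : 0.12 * s ≤ k * lam := by
      have : k * (0.12 * s) ≤ k * (k * lam) := by nlinarith
      exact le_of_mul_le_mul_left this hk0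
    rw [div_le_iff₀ hL0]
    have h11 : 0.12 * s ^ 2 ≤ 8 * L * lam := by
      have hlam : 0 ≤ lam := by
        by_contra hneg
        push Not at hneg
        nlinarith
      calc 0.12 * s ^ 2 = (0.12 * s) * s := by ring
        _ ≤ (k * lam) * s := mul_le_mul_of_nonneg_right h10 hs0.le
        _ = (k * s) * lam := by ring
        _ ≤ 8 * L * lam := mul_le_mul_of_nonneg_right hks2 hlam
    nlinarith

end Pool.Agent.Y642.LZ
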