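import Mathlib
import Pool.Agent.Y642.LZ.E

/-!
# The inequality for local places
-/

set_option autoImplicit false

open Finset Polynomial Module

universe u

namespace Pool.Agent.Y642.LZ

open Pool.Agent.H389R3.LR Pool.Agent.H389R3.LP

/-- the weighted sum of the squares of the numbers of zeros at the places -/
noncomputable def sqSum (f : ℤ[X]) {ι : Type*} (s : Finset ι) (D : ι → Loc.{u}) (R : ι → ℕ) : ℝ :=
  (realZeros f : ℝ) ^ 2 / 96 + ∑ i ∈ s, (R i : ℝ) ^ 2 * Real.log (D i).p /
    ((D i).e * (((D i).q : ℝ) - 1))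

/-- the weighted sum of the numbers of zeros at the nonarchimedean places -/
noncomputable def linSum {ι : Type*} (s : Finset ι) (D : ι → Loc.{u}) (R : ι → ℕ) : ℝ :=
  ∑ i ∈ s, (R i : ℝ) * Real.log (D i).p / (D i).e

lemma realZeros_neg (f : ℤ[X]) : realZeros (-f) = realZeros f := by
  unfold realZeros
  simp

/-- **The inequality for all numbers of powers.** -/
theorem all_k (f : ℤ[X]) (hf : Irreducible f)
    (hM : 1 < (f.map (Int.castRingHom ℂ)).mahlerMeasure)
    (hM2 : (f.map (Int.castRingHom ℂ)).mahlerMeasure < 2)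
    {ι : Type*} (s : Finset ι) (D : ι → Loc.{u}) (hinj : Set.InjOn (fun i => (D i).p) s)
    (Y : ∀ i, Finset (D i).A) (hY : ∀ i ∈ s, ∀ x ∈ Y i, aeval x f = 0)
    (hYt : ∀ i ∈ s, TorsionFree (Y i)) (k : ℕ) (hk : 1 ≤ k) :
    k * sqSum f s D (fun i => (Y i).card) ≤
      linSum s D (fun i => (Y i).card) + f.natDegree * (2 + Real.log (f.natDegree * k)) +
      3 * f.natDegree * k ^ 2 * Real.log (f.map (Int.castRingHom ℂ)).mahlerMeasure := by
  obtain ⟨hlc, hc0⟩ := units_of_lt_two f hf hM hM2
  have key : ∀ g : ℤ[X], Irreducible g → g.Monic → |g.coeff 0| = 1 →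
      1 < (g.map (Int.castRingHom ℂ)).mahlerMeasure → (∀ i ∈ s, ∀ x ∈ Y i, aeval x g = 0) →
      k * sqSum g s D (fun i => (Y i).card) ≤
        linSum s D (fun i => (Y i).card) + g.natDegree * (2 + Real.log (g.natDegree * k)) +
        3 * g.natDegree * k ^ 2 * Real.log (g.map (Int.castRingHom ℂ)).mahlerMeasure := by
    intro g hg hgm hg0 hgM hgt
    have h := irr_all g hg hgm (Int.isUnit_iff_abs_eq.mpr hg0) hgM s D hinj Y hgt hYt k hk
    have e1 : sqSum g s D (fun i => (Y i).card) = (realZeros g : ℝ) ^ 2 / 96 +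
      ∑ i ∈ s, ((Y i).card : ℝ) ^ 2 / (((D i).q : ℝ) - 1) / (D i).e * Real.log (D i).p := by
      unfold sqSum
      congr 1
      refine Finset.sum_congr rfl fun i _ => ?_
      rw [div_div, div_mul_eq_mul_div]
      congr 1
      ring
    have e2 : linSum s D (fun i => (Y i).card) =
        ∑ i ∈ s, ((Y i).card : ℝ) / (D i).e * Real.log (D i).p := by
      unfold linSum
      refine Finset.sum_congr rfl fun i _ => ?_
      ring
    rw [e1, e2]
    exact h
  rcases (abs_eq (zero_le_one' ℤ)).mp hlc with h3 | h3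
  · exact key f hf h3 hc0 hM hY
  · have hMneg := MM_neg' f
    have := key (-f) ((Associated.irreducible_iff (Associated.neg_left (Associated.refl f))).mpr hf)
      (by rw [Monic, leadingCoeff_neg, h3]; rfl) (by rw [coeff_neg, abs_neg]; exact hc0)
      (by rw [hMneg]; exact hM) (fun i hi x hx => by rw [map_neg, hY i hi x hx, neg_zero])
    rw [hMneg, natDegree_neg] at this
    have e1 : sqSum (-f) s D (fun i => (Y i).card) = sqSum f s D (fun i => (Y i).card) := by
      unfold sqSum; rw [realZeros_neg]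
    rw [e1] at this
    exact this

end Pool.Agent.Y642.LZ
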