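import Mathlib
import Pool.Agent.Y642.LZ.F

/-!
# Nonarchimedean local fields
-/

set_option autoImplicit false

open Finset Polynomial Module ValuativeRel

universe u

namespace Pool.Agent.Y642.LZ

/-- A nonarchimedean local field `K` of characteristic zero (in the sense of Mathlib), with the
prime number `p` below it and its ramification index `e` (so `p 𝒪 = 𝔪 ^ e`). -/
structure Place : Type (u + 1) where
  p : ℕ
  hp : p.Prime
  K : Type u
  [fld : Field K]
  [val : ValuativeRel K]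
  [top : TopologicalSpace K]
  [locf : IsNonarchimedeanLocalField K]
  [char0 : CharZero K]
  e : ℕ
  he : 1 ≤ e
  ram : Ideal.span {((p : ℕ) : 𝒪[K])} = 𝓂[K] ^ e

attribute [instance] Place.fld Place.val Place.top Place.locf Place.char0

/-- the number of elements of the residue field -/
noncomputable def Place.q (D : Place.{u}) : ℕ := Nat.card 𝓀[D.K]

section

variable (K : Type u) [Field K] [ValuativeRel K] [TopologicalSpace K] [IsNonarchimedeanLocalField K]
  [CharZero K]

instance : CharZero 𝒪[K] where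
  cast_injective m n h := by
    have h1 : (((m : ℕ) : 𝒪[K]) : K) = (((n : ℕ) : 𝒪[K]) : K) := congrArg Subtype.val h
    rw [SubringClass.coe_natCast, SubringClass.coe_natCast] at h1
    exact Nat.cast_injective h1

lemma exists_unif : ∃ π : 𝒪[K], 𝓂[K] = Ideal.span {π} := by
  obtain ⟨π, hπ⟩ := IsDiscreteValuationRing.exists_irreducible 𝒪[K]
  exact ⟨π, hπ.maximalIdeal_eq⟩

/-- a uniformizer -/
noncomputable def unif : 𝒪[K] := (exists_unif K).choose

lemma unif_spec : 𝓂[K] = Ideal.span {unif K} := (exists_unif K).choose_spec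

end

/-- the valuation ring of a local field as a place -/
noncomputable def Place.toLoc (D : Place.{u}) : Loc.{u} where
  p := D.p
  hp := D.hp
  A := 𝒪[D.K]
  π := unif D.K
  e := D.e
  he := D.he
  notUnit := by
    intro h
    have h1 := unif_spec D.K
    rw [(Ideal.span_singleton_eq_top).mpr h] at h1
    exact (IsLocalRing.maximalIdeal.isMaximal 𝒪[D.K]).ne_top h1
  assoc := by
    rw [← Ideal.span_singleton_eq_span_singleton, D.ram, unif_spec D.K, Ideal.span_singleton_pow]
  fin := by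
    rw [← unif_spec D.K]
    exact inferInstanceAs (Finite 𝓀[D.K])

lemma Place.toLoc_q (D : Place.{u}) : D.toLoc.q = D.q := by
  unfold Loc.q Place.q
  change Nat.card (𝒪[D.K] ⧸ Ideal.span {unif D.K}) = Nat.card (𝒪[D.K] ⧸ 𝓂[D.K])
  rw [← unif_spec D.K]

section

variable {K : Type u} [Field K] [ValuativeRel K] [TopologicalSpace K] [IsNonarchimedeanLocalField K]
  [CharZero K]

lemma mem_of_zero {f : ℤ[X]} (hf : |f.leadingCoeff| = 1) {x : K} (hx : aeval x f = 0) :
    x ∈ 𝒪[K] := by
  have hint : IsIntegral ℤ x := by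
    rcases (abs_eq (zero_le_one' ℤ)).mp hf with h | h
    · exact ⟨f, h, by rwa [← aeval_def]⟩
    · refine ⟨-f, ?_, ?_⟩
      · rw [Monic, leadingCoeff_neg, h]; rfl
      · rw [← aeval_def, map_neg, hx, neg_zero]
  have h2 : IsIntegral 𝒪[K] x := hint.tower_top
  exact (Valuation.integer.integers (valuation K)).mem_of_integral h2

lemma aeval_sub {f : ℤ[X]} (x : 𝒪[K]) : aeval (x : K) f = ((aeval x f : 𝒪[K]) : K) := by
  have h1 := Polynomial.hom_eval₂ f (algebraMap ℤ 𝒪[K]) (𝒪[K]).subtype x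
  rw [aeval_def, aeval_def]
  rw [show ((eval₂ (algebraMap ℤ 𝒪[K]) x f : 𝒪[K]) : K) =
    (𝒪[K]).subtype (eval₂ (algebraMap ℤ 𝒪[K]) x f) from rfl, h1]
  congr 1

end

/-- no two elements of `Z` differ by a root of unity only -/
def TorsionInd {A : Type u} [Field A] (Z : Finset A) : Prop :=
  ∀ x ∈ Z, ∀ y ∈ Z, ∀ m : ℕ, 1 ≤ m → x ^ m = y ^ m → x = y

/-- the weighted sum of the squares of the numbers of zeros at the places -/
noncomputable def placeSq (f : ℤ[X]) {ι : Type*} (s : Finset ι) (D : ι → Place.{u})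
    (R : ι → ℕ) : ℝ :=
  (realZeros f : ℝ) ^ 2 / 96 + ∑ i ∈ s, (R i : ℝ) ^ 2 * Real.log (D i).p /
    ((D i).e * (((D i).q : ℝ) - 1))

/-- the weighted sum of the numbers of zeros at the nonarchimedean places -/
noncomputable def placeLin {ι : Type*} (s : Finset ι) (D : ι → Place.{u}) (R : ι → ℕ) : ℝ :=
  ∑ i ∈ s, (R i : ℝ) * Real.log (D i).p / (D i).e

lemma placeLin_nonneg {ι : Type*} (s : Finset ι) (D : ι → Place.{u}) (R : ι → ℕ) :
    0 ≤ placeLin s D R := by
  unfold placeLin
  refine Finset.sum_nonneg fun i _ => ?_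
  have : 0 ≤ Real.log (D i).p := Real.log_natCast_nonneg _
  positivity

lemma placeSq_eq (f : ℤ[X]) {ι : Type*} (s : Finset ι)
    (D : ι → Place.{u}) (R : ι → ℕ) :
    placeSq f s D R = sqSum f s (fun i => (D i).toLoc) R := by
  unfold placeSq sqSum
  congr 1
  refine Finset.sum_congr rfl fun i _ => ?_
  rw [Place.toLoc_q]
  rfl

lemma placeLin_eq {ι : Type*} (s : Finset ι)
    (D : ι → Place.{u}) (R : ι → ℕ) :
    placeLin s D R = linSum s (fun i => (D i).toLoc) R := rfl

/-- **The inequality for all numbers of powers.** -/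
theorem place_all (f : ℤ[X]) (hf : Irreducible f)
    (hM : 1 < (f.map (Int.castRingHom ℂ)).mahlerMeasure)
    (hM2 : (f.map (Int.castRingHom ℂ)).mahlerMeasure < 2)
    {ι : Type*} (s : Finset ι) (D : ι → Place.{u}) (hinj : Set.InjOn (fun i => (D i).p) s)
    (Y : ∀ i, Finset (D i).K) (hY : ∀ i ∈ s, ∀ x ∈ Y i, aeval x f = 0)
    (hYt : ∀ i ∈ s, TorsionInd (Y i)) (k : ℕ) (hk : 1 ≤ k) :
    k * placeSq f s D (fun i => (Y i).card) ≤
      placeLin s D (fun i => (Y i).card) + f.natDegree * (2 + Real.log (f.natDegree * k)) +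
      3 * f.natDegree * k ^ 2 * Real.log (f.map (Int.castRingHom ℂ)).mahlerMeasure := by
  classical
  obtain ⟨hlc, -⟩ := Pool.Agent.H389R3.LP.units_of_lt_two f hf hM hM2
  -- move the sets to the valuation rings
  have hex : ∀ i, ∃ Z : Finset 𝒪[(D i).K], i ∈ s → Z.card = (Y i).card ∧
      ∀ x ∈ Z, (x : (D i).K) ∈ Y i := by
    intro i
    by_cases hi : i ∈ s
    · refine ⟨(Y i).attach.image fun x => ⟨x.1, mem_of_zero hlc (hY i hi x.1 x.2)⟩, fun _ => ⟨?_, ?_⟩⟩
      · rw [Finset.card_image_of_injective, Finset.card_attach]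
        intro x y hxy
        apply Subtype.ext
        have h5 := Subtype.ext_iff.mp hxy
        exact h5
      · intro x hx
        rw [Finset.mem_image] at hx
        obtain ⟨y, _, rfl⟩ := hx
        exact y.2
    · exact ⟨∅, fun h => absurd h hi⟩
  choose Z hZ using hex
  have hZ1 : ∀ i ∈ s, ∀ x : 𝒪[(D i).K], x ∈ Z i → aeval x f = 0 := by
    intro i hi x hx
    have h1 := hY i hi _ ((hZ i hi).2 x hx)
    rw [aeval_sub] at h1
    exact Subtype.val_injective h1
  have hZ2 : ∀ i ∈ s, ∀ x : 𝒪[(D i).K], x ∈ Z i → ∀ y : 𝒪[(D i).K], y ∈ Z i →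
      ∀ m : ℕ, 1 ≤ m → x ^ m = y ^ m → x = y := by
    intro i hi x hx y hy m hm hxy
    have h1 := hYt i hi _ ((hZ i hi).2 x hx) _ ((hZ i hi).2 y hy) m hm (by
      have := congrArg Subtype.val hxy
      simpa using this)
    exact Subtype.val_injective h1
  have h := all_k f hf hM hM2 s (fun i => (D i).toLoc) hinj Z (fun i hi x hx => hZ1 i hi x hx)
    (fun i hi x hx y hy m hm hxy => hZ2 i hi x hx y hy m hm hxy) k hk
  have e1 : sqSum f s (fun i => (D i).toLoc) (fun i => (Z i).card) =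
      placeSq f s D (fun i => (Y i).card) := by
    rw [placeSq_eq]
    unfold sqSum
    congr 1
    refine Finset.sum_congr rfl fun i hi => ?_
    dsimp only
    rw [(hZ i hi).1]
  have e2 : linSum s (fun i => (D i).toLoc) (fun i => (Z i).card) =
      placeLin s D (fun i => (Y i).card) := by
    rw [placeLin_eq]
    unfold linSum
    refine Finset.sum_congr rfl fun i hi => ?_
    dsimp only
    rw [(hZ i hi).1]
  rw [← e1, ← e2]
  exact h

/-- **The lower bound for the Mahler measure.** -/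
theorem place_lower (f : ℤ[X]) (hf : Irreducible f)
    (hM : 1 < (f.map (Int.castRingHom ℂ)).mahlerMeasure)
    {ι : Type*} (s : Finset ι) (D : ι → Place.{u}) (hinj : Set.InjOn (fun i => (D i).p) s)
    (Y : ∀ i, Finset (D i).K) (hY : ∀ i ∈ s, ∀ x ∈ Y i, aeval x f = 0)
    (hYt : ∀ i ∈ s, TorsionInd (Y i)) {S W : ℝ}
    (hS : S = placeSq f s D (fun i => (Y i).card))
    (hW : W = placeLin s D (fun i => (Y i).card))
    (hn : (f.natDegree : ℝ) ≤ S) :
    min 2 (Real.exp (min (S / f.natDegree)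
      (S ^ 2 / ((f.natDegree : ℝ) ^ 2 * (2 + Real.log f.natDegree) +
        f.natDegree * W)) / 80)) ≤ (f.map (Int.castRingHom ℂ)).mahlerMeasure := by
  rcases le_or_gt 2 (f.map (Int.castRingHom ℂ)).mahlerMeasure with h2 | h2
  · exact (min_le_left _ _).trans h2
  refine (min_le_right _ _).trans ?_
  rcases Nat.eq_zero_or_pos f.natDegree with hdeg | hdeg
  · rw [hdeg]
    simp only [Nat.cast_zero, div_zero, ne_eq, OfNat.ofNat_ne_zero, not_false_eq_true, zero_pow,
      zero_mul, add_zero, min_self, zero_div, Real.exp_zero]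
    exact hM.le
  have hn1 : (1:ℝ) ≤ f.natDegree := by exact_mod_cast hdeg
  have hW0 : 0 ≤ W := hW ▸ placeLin_nonneg s D _
  have h := choice hn1 hW0 hn (fun k hk => by
    rw [hS, hW]
    exact place_all f hf hM h2 s D hinj Y hY hYt k hk)
  have hM0 : 0 < (f.map (Int.castRingHom ℂ)).mahlerMeasure := by linarith
  rw [← Real.le_log_iff_exp_le hM0, div_le_iff₀ (by norm_num)]
  linarith

/-- **Lehmer's inequality.** -/
theorem place_lehmer (f : ℤ[X]) (hf : Irreducible f)
    (hM : 1 < (f.map (Int.castRingHom ℂ)).mahlerMeasure)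
    {ι : Type*} (s : Finset ι) (D : ι → Place.{u}) (hinj : Set.InjOn (fun i => (D i).p) s)
    (Y : ∀ i, Finset (D i).K) (hY : ∀ i ∈ s, ∀ x ∈ Y i, aeval x f = 0)
    (hYt : ∀ i ∈ s, TorsionInd (Y i)) {S W : ℝ}
    (hS : S = placeSq f s D (fun i => (Y i).card))
    (hW : W = placeLin s D (fun i => (Y i).card))
    (hn : (f.natDegree : ℝ) ≤ S)
    (hS2 : (f.natDegree : ℝ) ^ 2 * (2 + Real.log f.natDegree) + f.natDegree * W ≤ S ^ 2) :
    Real.exp (1 / 80) ≤ (f.map (Int.castRingHom ℂ)).mahlerMeasure := by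
  have hexp2 : Real.exp (1 / 80) ≤ 2 := by
    rw [← Real.le_log_iff_exp_le two_pos]
    have h4 := Real.log_two_gt_d9
    linarith
  rcases Nat.eq_zero_or_pos f.natDegree with hdeg | hdeg
  · rw [natDegree_eq_zero] at hdeg
    obtain ⟨c, hc⟩ := hdeg
    refine hexp2.trans ?_
    rw [← hc, Polynomial.map_C, mahlerMeasure_const, eq_intCast, Complex.norm_intCast] at hM ⊢
    have h1 : (1:ℤ) < |c| := by exact_mod_cast hM
    have h2 : (2:ℤ) ≤ |c| := h1
    exact_mod_cast h2
  have hn1 : (1:ℝ) ≤ f.natDegree := by exact_mod_cast hdeg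
  have hn0 : (0:ℝ) < f.natDegree := by linarith
  have hlog : 0 ≤ Real.log (f.natDegree : ℝ) := Real.log_nonneg hn1
  have hW0 : 0 ≤ W := hW ▸ placeLin_nonneg s D _
  have h := place_lower f hf hM s D hinj Y hY hYt hS hW hn
  refine le_trans (le_min hexp2 (Real.exp_le_exp.mpr ?_)) h
  apply div_le_div_of_nonneg_right _ (by norm_num : (0:ℝ) ≤ 80)
  apply le_min
  · rw [le_div_iff₀ hn0]; linarith
  · rw [le_div_iff₀ (by positivity)]; linarith

lemma place_lin_le (f : ℤ[X]) {ι : Type*} (s : Finset ι) (D : ι → Place.{u}) (R : ι → ℕ)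
    (hR : ∀ i ∈ s, 2 * (((D i).q : ℝ) - 1) ≤ R i) :
    placeLin s D R ≤ placeSq f s D R / 2 := by
  have h1 : placeLin s D R ≤ (∑ i ∈ s, (R i : ℝ) ^ 2 * Real.log (D i).p /
    ((D i).e * (((D i).q : ℝ) - 1))) / 2 := by
    unfold placeLin
    rw [Finset.sum_div]
    refine Finset.sum_le_sum fun i hi => ?_
    have hq : 2 ≤ (D i).q := by rw [← Place.toLoc_q]; exact Loc.two_le_q _
    have hq1 : (0:ℝ) < ((D i).q : ℝ) - 1 := by
      have : (2:ℝ) ≤ (D i).q := by exact_mod_cast hq
      linarith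
    have he : (0:ℝ) < (D i).e := by exact_mod_cast (D i).he
    have hlog : 0 ≤ Real.log (D i).p := Real.log_natCast_nonneg _
    have hRi := hR i hi
    rw [div_div, div_le_div_iff₀ he (by positivity)]
    have h2 : (R i : ℝ) * (2 * (((D i).q : ℝ) - 1)) ≤ (R i : ℝ) * (R i : ℝ) :=
      mul_le_mul_of_nonneg_left hRi (Nat.cast_nonneg _)
    have h3 := mul_le_mul_of_nonneg_right h2 (mul_nonneg hlog he.le)
    nlinarith
  have h2 : (0:ℝ) ≤ (realZeros f : ℝ) ^ 2 / 96 := by positivity
  unfold placeSq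
  linarith

/-- **The lower bound for the Mahler measure if there are many zeros at each place.** -/
theorem place_many (f : ℤ[X]) (hf : Irreducible f)
    (hM : 1 < (f.map (Int.castRingHom ℂ)).mahlerMeasure)
    {ι : Type*} (s : Finset ι) (D : ι → Place.{u}) (hinj : Set.InjOn (fun i => (D i).p) s)
    (Y : ∀ i, Finset (D i).K) (hY : ∀ i ∈ s, ∀ x ∈ Y i, aeval x f = 0)
    (hYt : ∀ i ∈ s, TorsionInd (Y i)) {S : ℝ}
    (hS : S = placeSq f s D (fun i => (Y i).card))
    (hR : ∀ i ∈ s, 2 * (((D i).q : ℝ) - 1) ≤ (Y i).card)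
    (hn : 2 * (f.natDegree : ℝ) ≤ S) :
    min 2 (Real.exp (min (S / f.natDegree)
      (S ^ 2 / ((f.natDegree : ℝ) ^ 2 * (2 + Real.log f.natDegree))) / 320)) ≤
        (f.map (Int.castRingHom ℂ)).mahlerMeasure := by
  rcases le_or_gt 2 (f.map (Int.castRingHom ℂ)).mahlerMeasure with h2 | h2
  · exact (min_le_left _ _).trans h2
  refine (min_le_right _ _).trans ?_
  rcases Nat.eq_zero_or_pos f.natDegree with hdeg | hdeg
  · rw [hdeg]
    simp only [Nat.cast_zero, div_zero, ne_eq, OfNat.ofNat_ne_zero, not_false_eq_true, zero_pow,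
      zero_mul, min_self, zero_div, Real.exp_zero]
    exact hM.le
  have hn1 : (1:ℝ) ≤ f.natDegree := by exact_mod_cast hdeg
  have hn0 : (0:ℝ) < f.natDegree := by linarith
  have hlog : 0 ≤ Real.log (f.natDegree : ℝ) := Real.log_nonneg hn1
  have hW := place_lin_le f s D (fun i => (Y i).card) hR
  rw [← hS] at hW
  have hS0 : 0 < S := by linarith
  have h := choice (S := S / 2) (W := 0)
    (lam := Real.log (f.map (Int.castRingHom ℂ)).mahlerMeasure) hn1 le_rfl (by linarith)
    (fun k hk => by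
    have h1 := place_all f hf hM h2 s D hinj Y hY hYt k hk
    have hk1 : (1:ℝ) ≤ k := by exact_mod_cast hk
    have h3 : S / 2 ≤ k * (S / 2) := by nlinarith
    have h4 : (k:ℝ) * S = k * (S / 2) + k * (S / 2) := by ring
    rw [← hS] at h1
    linarith)
  have hM0 : 0 < (f.map (Int.castRingHom ℂ)).mahlerMeasure := by linarith
  rw [← Real.le_log_iff_exp_le hM0, div_le_iff₀ (by norm_num)]
  have h5 : min (S / f.natDegree) (S ^ 2 / ((f.natDegree : ℝ) ^ 2 * (2 + Real.log f.natDegree))) / 4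
      ≤ min (S / 2 / f.natDegree)
      ((S / 2) ^ 2 / ((f.natDegree : ℝ) ^ 2 * (2 + Real.log f.natDegree) + f.natDegree * 0)) := by
    apply le_min
    · have h6 := min_le_left (S / (f.natDegree : ℝ))
        (S ^ 2 / ((f.natDegree : ℝ) ^ 2 * (2 + Real.log f.natDegree)))
      have h7 : 0 ≤ S / (f.natDegree : ℝ) := by positivity
      have h8 : S / 2 / (f.natDegree : ℝ) = (S / f.natDegree) / 2 := by ring
      rw [h8]
      linarith
    · have h6 := min_le_right (S / (f.natDegree : ℝ))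
        (S ^ 2 / ((f.natDegree : ℝ) ^ 2 * (2 + Real.log f.natDegree)))
      have h8 : (S / 2) ^ 2 / ((f.natDegree : ℝ) ^ 2 * (2 + Real.log f.natDegree) +
          f.natDegree * 0) = S ^ 2 / ((f.natDegree : ℝ) ^ 2 * (2 + Real.log f.natDegree)) / 4 := by
        rw [mul_zero, add_zero]; ring
      rw [h8]
      linarith
  linarith

end Pool.Agent.Y642.LZ
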