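import Mathlib
import Pool.Agent.TH53.HR3
import Pool.Agent.W666.DY.Energy
import Pool.Agent.Y642.LZ.C

/-!
# The energy bound by Hadamard's inequality and congruences modulo powers of a uniformizer
-/

set_option autoImplicit false

open Finset Polynomial

universe u

namespace Pool.Agent.Y642.LZ

open Pool.Agent.H388SL Pool.Agent.H389R3.LR Pool.Agent.H389R3.LP

lemma energy_fin_le {N : ℕ} (v : Fin N → ℂ) (hv : Function.Injective v) :
    ∑ i, ∑ j, Real.log ‖v i - v j‖ ≤
      N * Real.log N + 2 * ((N : ℝ) - 1) * ∑ i, Real.log (max 1 ‖v i‖) := by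
  rcases Nat.eq_zero_or_pos N with hN | hN
  · subst hN
    simp
  have hdet0 : (Matrix.vandermonde v).det ≠ 0 := Matrix.det_vandermonde_ne_zero_iff.mpr hv
  have hlog : Real.log ‖(Matrix.vandermonde v).det‖ = ∑ i, ∑ j ∈ Ioi i, Real.log ‖v i - v j‖ := by
    rw [Matrix.det_vandermonde, norm_prod, Real.log_prod]
    · refine Finset.sum_congr rfl fun i _ => ?_
      rw [norm_prod, Real.log_prod]
      · refine Finset.sum_congr rfl fun j _ => ?_
        rw [norm_sub_rev]
      · intro j hj
        rw [Finset.mem_Ioi] at hj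
        rw [Ne, norm_eq_zero, sub_eq_zero]
        intro h
        exact hj.ne' (hv h)
    · intro i _
      rw [norm_prod, Finset.prod_ne_zero_iff]
      intro j hj
      rw [Finset.mem_Ioi] at hj
      rw [Ne, norm_eq_zero, sub_eq_zero]
      intro h
      exact hj.ne' (hv h)
  rw [Pool.Agent.W666.DY.sum_symm (fun i j => Real.log ‖v i - v j‖)
    (fun i j => by rw [norm_sub_rev]) (fun i => by rw [sub_self, norm_zero, Real.log_zero]), ← hlog]
  have hd : 0 < ‖(Matrix.vandermonde v).det‖ := norm_pos_iff.mpr hdet0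
  have h1 := Real.log_le_log (by positivity) (Pool.Agent.TH53.HR.vandermonde_le v)
  have hN0 : (0:ℝ) < N := by exact_mod_cast hN
  have hm : ∀ i, (0:ℝ) < max 1 ‖v i‖ := fun i => lt_of_lt_of_le one_pos (le_max_left _ _)
  rw [Real.log_pow, Real.log_mul (by positivity) (Finset.prod_ne_zero_iff.mpr fun i _ =>
    (pow_pos (hm i) _).ne'), Real.log_pow, Real.log_prod fun i _ => (pow_pos (hm i) _).ne'] at h1
  simp only [Real.log_pow] at h1
  rw [← Finset.mul_sum] at h1
  have h2 : ((2 * (N - 1) : ℕ) : ℝ) = 2 * ((N : ℝ) - 1) := by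
    rw [Nat.cast_mul, Nat.cast_sub hN]; norm_num
  rw [h2] at h1
  exact_mod_cast h1

/-- the energy bound -/
lemma energy_le (Z : Finset ℂ) :
    ∑ z ∈ Z, ∑ w ∈ Z, (if z = w then 0 else Real.log ‖z - w‖) ≤
      Z.card * Real.log Z.card + 2 * ((Z.card : ℝ) - 1) * ∑ z ∈ Z, Real.log (max 1 ‖z‖) := by
  set e := Z.equivFin.symm with he
  set v : Fin Z.card → ℂ := fun i => (e i : ℂ) with hv
  have hinj : Function.Injective v := Subtype.val_injective.comp e.injective
  have h := energy_fin_le v hinj
  have h0 : ∀ z w : ℂ, (if z = w then 0 else Real.log ‖z - w‖) = Real.log ‖z - w‖ := by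
    intro z w
    split_ifs with hzw
    · rw [hzw, sub_self, norm_zero, Real.log_zero]
    · rfl
  have h1 : ∑ z ∈ Z, ∑ w ∈ Z, (if z = w then 0 else Real.log ‖z - w‖) =
      ∑ i, ∑ j, Real.log ‖v i - v j‖ := by
    rw [← Finset.sum_coe_sort Z, ← Equiv.sum_comp e]
    refine Finset.sum_congr rfl fun i _ => ?_
    rw [← Finset.sum_coe_sort Z, ← Equiv.sum_comp e]
    refine Finset.sum_congr rfl fun j _ => ?_
    rw [h0]
  have h2 : ∑ z ∈ Z, Real.log (max 1 ‖z‖) = ∑ i, Real.log (max 1 ‖v i‖) := by
    rw [← Finset.sum_coe_sort Z, ← Equiv.sum_comp e]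
  rw [h1, h2]
  exact h

section

variable {A : Type*} [CommRing A] [IsDomain A]

open Classical in
/-- the number of triples `(s, w, j)` with `s ≠ w`, `j < J` and `s ≡ w` modulo `π ^ (j + 1)` -/
noncomputable def collJ (π : A) (J : ℕ) (T : Finset A) : ℕ :=
  ∑ s ∈ T, ∑ w ∈ T.erase s, ((Finset.range J).filter fun j => π ^ (j + 1) ∣ s - w).card

lemma pow_card_dvd (π x : A) (J : ℕ) [DecidablePred fun j => π ^ (j + 1) ∣ x] :
    π ^ ((Finset.range J).filter fun j => π ^ (j + 1) ∣ x).card ∣ x := by
  set F := (Finset.range J).filter fun j => π ^ (j + 1) ∣ x with hF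
  rcases F.eq_empty_or_nonempty with h | h
  · rw [h]; simp
  · have h1 := F.max'_mem h
    have h2 : F ⊆ Finset.range (F.max' h + 1) := by
      intro j hj
      rw [Finset.mem_range]
      exact Nat.lt_succ_of_le (F.le_max' j hj)
    have h3 := Finset.card_le_card h2
    rw [Finset.card_range] at h3
    have h4 : π ^ (F.max' h + 1) ∣ x := (Finset.mem_filter.mp h1).2
    exact (pow_dvd_pow π h3).trans h4

/-- divisibility of the resultant -/
theorem dvd_res_J [CharZero A] (π : A) (J : ℕ) (Q : ℤ[X]) (hQ : Q.Monic) (T : Finset A)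
    (hT : ∀ s ∈ T, (Q.map (Int.castRingHom A)).eval s = 0) :
    π ^ collJ π J T ∣
      ((resultant Q (derivative Q) Q.natDegree (derivative Q).natDegree : ℤ) : A) := by
  classical
  set φ := Int.castRingHom A with hφ
  have hinj : Function.Injective φ := RingHom.injective_int φ
  set F := Q.map φ with hF
  set r := resultant Q (derivative Q) Q.natDegree (derivative Q).natDegree with hr
  have hFm : F.Monic := hQ.map φ
  have h1 := resultant_map_map Q (derivative Q) Q.natDegree (derivative Q).natDegree φ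
  rw [← hF, ← derivative_map, ← hF, ← hr] at h1
  have h3 : F.natDegree = Q.natDegree := natDegree_map_eq_of_injective hinj Q
  set B : A[X] := ∏ s ∈ T, (X - C s) with hB
  have hAd : B ∣ F := by
    have h4 : T.val ≤ F.roots := by
      rw [Multiset.le_iff_subset T.nodup]
      intro s hs
      rw [mem_roots hFm.ne_zero]
      exact hT s hs
    exact (Multiset.prod_X_sub_C_dvd_iff_le_roots hFm.ne_zero T.val).mpr h4
  obtain ⟨G, hG⟩ := hAd
  have hAm : B.Monic := monic_prod_of_monic _ _ fun z _ => monic_X_sub_C z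
  have hGm : G.Monic := hAm.of_mul_monic_left (hG ▸ hFm)
  have hdeg : B.natDegree + G.natDegree = Q.natDegree := by
    rw [← h3, hG, hAm.natDegree_mul hGm]
  have hn : (derivative F).natDegree ≤ (derivative Q).natDegree := by
    rw [hF, derivative_map]
    exact natDegree_map_le
  have h6 := resultant_mul_left B G (derivative F) (derivative Q).natDegree hn
  rw [← hG, hdeg, h1] at h6
  have hAs : B.Splits := Splits.prod fun s _ => Splits.X_sub_C s
  have h7 := resultant_eq_prod_eval B (derivative F) (derivative Q).natDegree hn hAs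
  have hroots : B.roots = T.val := roots_prod_X_sub_C T
  rw [hroots, hAm.leadingCoeff, one_pow, one_mul] at h7
  have h8 : (T.val.map (derivative F).eval).prod = ∏ s ∈ T, (derivative F).eval s := rfl
  rw [h8] at h7
  have h9 : π ^ collJ π J T ∣ ∏ s ∈ T, (derivative F).eval s := by
    unfold collJ
    rw [← Finset.prod_pow_eq_pow_sum]
    refine Finset.prod_dvd_prod_of_dvd _ _ fun s hs => ?_
    have h10 : (derivative F).eval s = (∏ w ∈ T.erase s, (s - w)) * G.eval s := by
      rw [hG, derivative_mul, eval_add, eval_mul, eval_mul]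
      have h11 : B.eval s = 0 := by
        rw [hB, eval_prod]
        exact Finset.prod_eq_zero hs (by simp)
      rw [h11, zero_mul, add_zero, hB, eval_deriv_prod' T hs]
    rw [h10]
    refine Dvd.dvd.mul_right ?_ _
    rw [← Finset.prod_pow_eq_pow_sum]
    refine Finset.prod_dvd_prod_of_dvd _ _ fun w hw => ?_
    convert pow_card_dvd π (s - w) J
  have h12 : (r : A) = φ r := rfl
  rw [h12, h6, h7]
  exact h9.mul_right _

/-- representatives of the classes of units modulo powers of `π` -/
lemma exists_reps {π : A} (hπ : ¬ IsUnit π) [Finite (A ⧸ Ideal.span {π})] (j : ℕ) :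
    ∃ C : Finset A, C.card ≤ (Nat.card (A ⧸ Ideal.span {π}) - 1) *
        Nat.card (A ⧸ Ideal.span {π}) ^ j ∧
      ∀ s : A, IsUnit s → ∃ c ∈ C, π ^ (j + 1) ∣ s - c := by
  classical
  have : Fintype (A ⧸ Ideal.span {π}) := Fintype.ofFinite _
  have hsurj : Function.Surjective (Ideal.Quotient.mk (Ideal.span {π})) :=
    Ideal.Quotient.mk_surjective
  set g : (A ⧸ Ideal.span {π}) → A := Function.surjInv hsurj with hg
  have hgs : ∀ s : A, π ∣ s - g (Ideal.Quotient.mk (Ideal.span {π}) s) := by
    intro s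
    rw [← Ideal.mem_span_singleton, ← Ideal.Quotient.eq]
    exact (Function.surjInv_eq hsurj _).symm
  induction j with
  | zero =>
    refine ⟨(Finset.univ.erase (0 : A ⧸ Ideal.span {π})).image g, ?_, ?_⟩
    · refine Finset.card_image_le.trans ?_
      rw [Finset.card_erase_of_mem (Finset.mem_univ _), Finset.card_univ, Nat.card_eq_fintype_card,
        pow_zero, mul_one]
    · intro s hs
      refine ⟨g (Ideal.Quotient.mk (Ideal.span {π}) s), Finset.mem_image_of_mem _ ?_, ?_⟩
      · rw [Finset.mem_erase]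
        refine ⟨fun h0 => ?_, Finset.mem_univ _⟩
        rw [Ideal.Quotient.eq_zero_iff_mem, Ideal.mem_span_singleton] at h0
        exact hπ (isUnit_of_dvd_unit h0 hs)
      · rw [zero_add, pow_one]
        exact hgs s
  | succ j ih =>
    obtain ⟨C, hC, hCs⟩ := ih
    refine ⟨Finset.image₂ (fun c d => c + π ^ (j + 1) * d) C (Finset.univ.image g), ?_, ?_⟩
    · refine (Finset.card_image₂_le _ _ _).trans ?_
      have h1 : (Finset.univ.image g).card ≤ Nat.card (A ⧸ Ideal.span {π}) := by
        refine Finset.card_image_le.trans ?_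
        rw [Finset.card_univ, Nat.card_eq_fintype_card]
      rw [pow_succ, ← mul_assoc]
      exact Nat.mul_le_mul hC h1
    · intro s hs
      obtain ⟨c, hc, b, hb⟩ := hCs s hs
      refine ⟨c + π ^ (j + 1) * g (Ideal.Quotient.mk (Ideal.span {π}) b),
        Finset.mem_image₂_of_mem hc (Finset.mem_image_of_mem _ (Finset.mem_univ _)), ?_⟩
      obtain ⟨d, hd⟩ := hgs b
      refine ⟨d, ?_⟩
      have h1 : s - (c + π ^ (j + 1) * g (Ideal.Quotient.mk (Ideal.span {π}) b)) =
          π ^ (j + 1) * (b - g (Ideal.Quotient.mk (Ideal.span {π}) b)) := by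
        rw [mul_sub, ← hb]; ring
      rw [h1, hd]
      ring

open Classical in
/-- counting pairs by classes -/
lemma sq_le_pairs {ρ : A} {C : Finset A} (T : Finset A)
    (hC : ∀ s ∈ T, ∃ c ∈ C, ρ ∣ s - c) :
    (T.card : ℝ) ^ 2 ≤ (C.card : ℝ) *
      ((∑ s ∈ T, ((T.erase s).filter fun w => ρ ∣ s - w).card : ℕ) + T.card) := by
  have hex : ∀ s : A, ∃ c : A, s ∈ T → c ∈ C ∧ ρ ∣ s - c := by
    intro s
    by_cases hs : s ∈ T
    · obtain ⟨c, h1, h2⟩ := hC s hs
      exact ⟨c, fun _ => ⟨h1, h2⟩⟩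
    · exact ⟨0, fun h => absurd h hs⟩
  choose f hf using hex
  have hmaps : ∀ s ∈ T, f s ∈ C := fun s hs => (hf s hs).1
  have h1 : (T.card : ℝ) = ∑ b ∈ C, ((T.filter fun s => f s = b).card : ℝ) := by
    have := Finset.card_eq_sum_card_fiberwise (f := f) (s := T) (t := C) (fun s hs => hmaps s hs)
    rw [this]; push_cast; rfl
  have h2 : ((∑ s ∈ T, (T.filter fun w => f w = f s).card : ℕ) : ℝ) =
      ∑ b ∈ C, ((T.filter fun s => f s = b).card : ℝ) ^ 2 := by
    rw [← Finset.sum_fiberwise_of_maps_to (s := T) (t := C) (g := f) hmaps]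
    push_cast
    refine Finset.sum_congr rfl fun b hb => ?_
    have h3 : ∀ s ∈ T.filter (fun s => f s = b),
        ((T.filter fun w => f w = f s).card : ℝ) = ((T.filter fun s => f s = b).card : ℝ) := by
      intro s hs
      rw [(Finset.mem_filter.mp hs).2]
    rw [Finset.sum_congr rfl h3, Finset.sum_const, nsmul_eq_mul, sq]
  have h3 : (∑ s ∈ T, (T.filter fun w => f w = f s).card) ≤
      ∑ s ∈ T, ((T.erase s).filter fun w => ρ ∣ s - w).card + T.card := by
    rw [Finset.card_eq_sum_ones T, ← Finset.sum_add_distrib]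
    refine Finset.sum_le_sum fun s hs => ?_
    have h4 : T.filter (fun w => f w = f s) ⊆
        insert s ((T.erase s).filter fun w => ρ ∣ s - w) := by
      intro w hw
      rw [Finset.mem_filter] at hw
      rw [Finset.mem_insert, Finset.mem_filter, Finset.mem_erase]
      by_cases hws : w = s
      · exact Or.inl hws
      · right
        refine ⟨⟨hws, hw.1⟩, ?_⟩
        have h5 := dvd_sub (hf s hs).2 (hf w hw.1).2
        rw [hw.2] at h5
        simpa using h5
    exact (Finset.card_le_card h4).trans (Finset.card_insert_le _ _)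
  have h5 := sq_sum_le_card_mul_sum_sq (s := C) (f := fun b => ((T.filter fun s => f s = b).card : ℝ))
  rw [← h1, ← h2] at h5
  refine h5.trans (mul_le_mul_of_nonneg_left ?_ (Nat.cast_nonneg _))
  exact_mod_cast h3

open Classical in
lemma collJ_eq (π : A) (J : ℕ) (T : Finset A) :
    collJ π J T = ∑ j ∈ Finset.range J, ∑ s ∈ T,
      ((T.erase s).filter fun w => π ^ (j + 1) ∣ s - w).card := by
  unfold collJ
  have h : ∀ s ∈ T, ∑ w ∈ T.erase s, ((Finset.range J).filter fun j => π ^ (j + 1) ∣ s - w).card =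
      ∑ j ∈ Finset.range J, ((T.erase s).filter fun w => π ^ (j + 1) ∣ s - w).card := by
    intro s _
    simp only [Finset.card_filter]
    exact Finset.sum_comm
  rw [Finset.sum_congr rfl h, Finset.sum_comm]

/-- the number of collisions at all levels -/
lemma sq_le_collJ {π : A} (hπ : ¬ IsUnit π) [Finite (A ⧸ Ideal.span {π})] {q : ℕ}
    (hq : q = Nat.card (A ⧸ Ideal.span {π})) (hq2 : 2 ≤ q) (J : ℕ) (T : Finset A)
    (hu : ∀ s ∈ T, IsUnit s) :
    (T.card : ℝ) ^ 2 * ∑ j ∈ Finset.range J, 1 / (((q : ℝ) - 1) * (q : ℝ) ^ j) ≤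
      collJ π J T + J * T.card := by
  classical
  rw [collJ_eq, Finset.mul_sum]
  push_cast
  have h0 : (J : ℝ) * T.card = ∑ j ∈ Finset.range J, (T.card : ℝ) := by
    rw [Finset.sum_const, Finset.card_range, nsmul_eq_mul]
  rw [h0, ← Finset.sum_add_distrib]
  refine Finset.sum_le_sum fun j _ => ?_
  obtain ⟨C, hC, hCs⟩ := exists_reps hπ j
  have h1 := sq_le_pairs (ρ := π ^ (j + 1)) (C := C) T (fun s hs => hCs s (hu s hs))
  rw [← hq] at hC
  have hq1 : (0:ℝ) < (q : ℝ) - 1 := by
    have : (2:ℝ) ≤ q := by exact_mod_cast hq2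
    linarith
  have hq0 : (0:ℝ) < q := by linarith
  have h2 : (C.card : ℝ) ≤ ((q : ℝ) - 1) * (q : ℝ) ^ j := by
    have h3 : (C.card : ℝ) ≤ (((q - 1) * q ^ j : ℕ) : ℝ) := by exact_mod_cast hC
    rw [Nat.cast_mul, Nat.cast_pow, Nat.cast_sub (by omega)] at h3
    simpa using h3
  rw [mul_one_div, div_le_iff₀ (by positivity)]
  refine h1.trans ?_
  rw [mul_comm]
  push_cast
  exact mul_le_mul_of_nonneg_left h2 (by positivity)

end

end Pool.Agent.Y642.LZ
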