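import Mathlib
import Pool.Agent.Y642.LZ.G
import Pool.Agent.Y642.LZ.H

/-!
# The inequality with sharp constants
-/

set_option autoImplicit false

open Finset Polynomial Module IntermediateField ValuativeRel

universe u

namespace Pool.Agent.Y642.LZ

open Pool.Agent.H388SL Pool.Agent.H389R3.LR Pool.Agent.H389R3.LP

/-- the sum of `1 / ((q - 1) q ^ j)` over `j < J` -/
noncomputable def lev (q J : ℕ) : ℝ := ∑ j ∈ Finset.range J, 1 / (((q : ℝ) - 1) * (q : ℝ) ^ j)

section

variable {K : Type*} [Field K] [NumberField K]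

/-- the contribution of one place -/
lemma place_bound_J {α : K} (hα : IsIntegral ℤ α) (h0 : α ≠ 0)
    (hroot : ∀ n : ℕ, 0 < n → α ^ n ≠ 1) (hu : IsUnit ((minpoly ℤ α).coeff 0))
    (D : Loc.{u}) {Y : Finset D.A} (hY : ∀ x ∈ Y, x ∈ aRoots D.A α) (hYt : TorsionFree Y)
    (J k : ℕ) (Q : ℤ[X]) (hQm : Q.Monic)
    (hQ : Q = ∏ m ∈ Finset.Icc 1 k, minpoly ℤ (α ^ m)) {r : ℤ}
    (hr : r = resultant Q (derivative Q) Q.natDegree (derivative Q).natDegree) (hr0 : r ≠ 0) :
    ((k : ℝ) ^ 2 * ((Y.card : ℝ) ^ 2 * lev D.q J) -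
      k * (J * Y.card)) / D.e * Real.log D.p ≤
      (padicValInt D.p r : ℝ) * Real.log D.p := by
  classical
  set T := powSet Y k with hT
  have hTroot : ∀ x ∈ T, (Q.map (Int.castRingHom D.A)).eval x = 0 := by
    intro x hx
    rw [hT] at hx
    unfold powSet at hx
    rw [Finset.mem_image] at hx
    obtain ⟨⟨m, y⟩, hmy, rfl⟩ := hx
    rw [Finset.mem_product] at hmy
    have h1 := pow_mem_aRoots hα (hY _ hmy.2) m
    rw [mem_aRoots (hα.pow m)] at h1
    rw [hQ, Polynomial.map_prod, eval_prod]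
    refine Finset.prod_eq_zero hmy.1 ?_
    rw [eval_map]
    exact h1
  have hTunit : ∀ x ∈ T, IsUnit x := by
    intro x hx
    rw [hT] at hx
    unfold powSet at hx
    rw [Finset.mem_image] at hx
    obtain ⟨⟨m, y⟩, hmy, rfl⟩ := hx
    rw [Finset.mem_product] at hmy
    exact (isUnit_of_aRoots hα hu (hY _ hmy.2)).pow m
  have h1 := dvd_res_J D.π J Q hQm T hTroot
  rw [← hr] at h1
  have h2 := val_le D.notUnit D.hp D.he D.assoc hr0 h1
  have h3 := sq_le_collJ D.notUnit (q := D.q) rfl D.two_le_q J T hTunit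
  have h4 := powSet_card (A := D.A) hα h0 hroot hY hYt k
  rw [← hT] at h4
  have he0 : (0:ℝ) < D.e := by exact_mod_cast D.he
  have hp1 : (1:ℝ) < D.p := by exact_mod_cast D.hp.one_lt
  have hlog : 0 < Real.log D.p := Real.log_pos hp1
  have h4' : (T.card : ℝ) = k * Y.card := by exact_mod_cast h4
  rw [h4'] at h3
  have h2' : (collJ D.π J T : ℝ) ≤ D.e * padicValInt D.p r := by exact_mod_cast h2
  refine mul_le_mul_of_nonneg_right ?_ hlog.le
  rw [div_le_iff₀ he0]
  unfold lev
  linarith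

theorem main_sharp {α : K} (hα : IsIntegral ℤ α) (h0 : α ≠ 0)
    (hroot : ∀ n : ℕ, 0 < n → α ^ n ≠ 1) (hu : IsUnit ((minpoly ℤ α).coeff 0))
    {ι : Type*} (s : Finset ι) (D : ι → Loc.{u}) (hinj : Set.InjOn (fun i => (D i).p) s)
    (Y : ∀ i, Finset (D i).A) (hY : ∀ i ∈ s, ∀ x ∈ Y i, x ∈ aRoots (D i).A α)
    (hYt : ∀ i ∈ s, TorsionFree (Y i)) (J : ι → ℕ)
    (k : ℕ) (hk : 1 ≤ k) :
    (k : ℝ) * (∑ i ∈ s, ((Y i).card : ℝ) ^ 2 * lev (D i).q (J i) / (D i).e * Real.log (D i).p) ≤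
      ∑ i ∈ s, (J i : ℝ) * (Y i).card / (D i).e * Real.log (D i).p +
      finrank ℚ K * Real.log (finrank ℚ K * k) + finrank ℚ K * k * (k + 1) * lam α := by
  classical
  set Z : Finset ℂ := (Finset.Icc 1 k).biUnion fun m => conjSet (α ^ m) with hZ
  set n := finrank ℚ K with hn
  have hn0 : 0 < n := finrank_pos
  have hdisj : Set.PairwiseDisjoint (↑(Finset.Icc 1 k)) (fun m => conjSet (α ^ m)) := by
    intro m _ l _ hml
    exact conj_disjoint hα h0 hroot hml
  set Q : ℤ[X] := ∏ m ∈ Finset.Icc 1 k, minpoly ℤ (α ^ m) with hQ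
  have hQm : Q.Monic := monic_prod_of_monic _ _ fun m _ => minpoly.monic (hα.pow m)
  have hQmap : Q.map (Int.castRingHom ℂ) = ∏ z ∈ Z, (X - C z) := by
    rw [hQ, Polynomial.map_prod, hZ, Finset.prod_biUnion hdisj]
    exact Finset.prod_congr rfl fun m _ => minpolyZ_map (hα.pow m)
  obtain ⟨hr0, hdsum⟩ := disc_sum Q Z hQmap
  have hZne : Z.Nonempty := by
    have hne : (Finset.univ : Finset (K →ₐ[ℚ] ℂ)).Nonempty := by
      rw [← Finset.card_pos, Finset.card_univ, AlgHom.card]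
      exact finrank_pos
    obtain ⟨σ, _⟩ := hne
    exact ⟨σ (α ^ 1), Finset.mem_biUnion.mpr ⟨1, Finset.mem_Icc.mpr ⟨le_rfl, hk⟩,
      mem_conjSet.mpr ⟨σ, rfl⟩⟩⟩
  -- the local contributions
  set r : ℤ := resultant Q (derivative Q) Q.natDegree (derivative Q).natDegree with hr
  set W : ℝ := ∑ i ∈ s, (J i : ℝ) * (Y i).card / (D i).e * Real.log (D i).p with hW
  set S : ℝ := ∑ i ∈ s, ((Y i).card : ℝ) ^ 2 * lev (D i).q (J i) / (D i).e *
    Real.log (D i).p with hS
  have hdisc : (k : ℝ) ^ 2 * S - k * W ≤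
      ∑ z ∈ Z, ∑ w ∈ Z, (if z = w then 0 else Real.log ‖z - w‖) := by
    rw [hdsum]
    refine le_trans ?_ (log_ge s (fun i => (D i).p) (fun i _ => (D i).hp) hinj hr0)
    rw [hS, hW, Finset.mul_sum, Finset.mul_sum, ← Finset.sum_sub_distrib]
    refine Finset.sum_le_sum fun i hi => ?_
    refine le_trans (le_of_eq ?_) (place_bound_J hα h0 hroot hu (D i) (hY i hi) (hYt i hi) (J i) k
      Q hQm hQ hr hr0)
    ring
  have hmain := energy_le Z
  -- the number of elements
  have hcard : Z.card ≤ n * k := by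
    rw [hZ]
    refine Finset.card_biUnion_le.trans ?_
    refine (Finset.sum_le_sum fun m _ => card_conjSet_le (α ^ m)).trans ?_
    rw [Finset.sum_const, Nat.card_Icc, smul_eq_mul, ← hn]
    simp [mul_comm]
  -- the Mahler measure
  have hlam : ∑ z ∈ Z, Real.log (max 1 ‖z‖) ≤ (k : ℝ) * (k + 1) / 2 * lam α := by
    rw [hZ, Finset.sum_biUnion hdisj]
    have h1 : ∀ m ∈ Finset.Icc 1 k, ∑ z ∈ conjSet (α ^ m), Real.log (max 1 ‖z‖) ≤
        (m : ℝ) * lam α := by
      intro m hm
      refine (sum_conjSet_le (α ^ m) _ fun z => Real.log_nonneg (le_max_left _ _)).trans ?_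
      have h2 := lam_pow α m
      unfold lam at h2 ⊢
      rw [h2]
    refine (Finset.sum_le_sum h1).trans ?_
    rw [← Finset.sum_mul]
    apply le_of_eq
    congr 1
    have h3 : ∀ k : ℕ, ∑ m ∈ Finset.Icc 1 k, (m : ℝ) = (k : ℝ) * (k + 1) / 2 := by
      intro k
      induction k with
      | zero => simp
      | succ k ih =>
        rw [Finset.sum_Icc_succ_top (by omega), ih]
        push_cast
        ring
    exact h3 k
  have hcard' : (Z.card : ℝ) ≤ n * k := by exact_mod_cast hcard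
  have hZc : 0 < Z.card := Finset.card_pos.mpr hZne
  have hZ1 : (1:ℝ) ≤ Z.card := by exact_mod_cast hZc
  have hlogle : Real.log Z.card ≤ Real.log (n * k) :=
    Real.log_le_log (by exact_mod_cast hZc) hcard'
  have hl0 := lam_nonneg α
  have hs0 : 0 ≤ ∑ z ∈ Z, Real.log (max 1 ‖z‖) :=
    Finset.sum_nonneg fun z _ => Real.log_nonneg (le_max_left _ _)
  have hlc : 0 ≤ Real.log Z.card := Real.log_natCast_nonneg _
  have hk0 : (0:ℝ) < k := by exact_mod_cast hk
  have h1 : 2 * ((Z.card : ℝ) - 1) * (∑ z ∈ Z, Real.log (max 1 ‖z‖)) ≤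
      2 * (n * k) * ((k : ℝ) * (k + 1) / 2 * lam α) := by
    exact mul_le_mul (by linarith) hlam hs0 (by positivity)
  have h2 : (Z.card : ℝ) * Real.log Z.card ≤ (n * k) * Real.log (n * k) := by
    exact mul_le_mul hcard' hlogle hlc (by positivity)
  have h3 : (k : ℝ) * ((k : ℝ) * S) ≤
      (k : ℝ) * (W + n * Real.log (n * k) + n * k * (k + 1) * lam α) := by
    nlinarith
  exact le_of_mul_le_mul_left h3 hk0

end

lemma irr_sharp (f : ℤ[X]) (hf : Irreducible f) (hm : f.Monic) (hu : IsUnit (f.coeff 0))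
    (hM : 1 < (f.map (Int.castRingHom ℂ)).mahlerMeasure)
    {ι : Type*} (s : Finset ι) (D : ι → Loc.{u}) (hinj : Set.InjOn (fun i => (D i).p) s)
    (Y : ∀ i, Finset (D i).A) (hY : ∀ i ∈ s, ∀ x ∈ Y i, aeval x f = 0)
    (hYt : ∀ i ∈ s, TorsionFree (Y i)) (J : ι → ℕ)
    (k : ℕ) (hk : 1 ≤ k) :
    (k : ℝ) * (∑ i ∈ s, ((Y i).card : ℝ) ^ 2 * lev (D i).q (J i) / (D i).e * Real.log (D i).p) ≤
      ∑ i ∈ s, (J i : ℝ) * (Y i).card / (D i).e * Real.log (D i).p +
      f.natDegree * Real.log (f.natDegree * k) +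
      f.natDegree * k * (k + 1) * Real.log (f.map (Int.castRingHom ℂ)).mahlerMeasure := by
  classical
  have hdeg : f.natDegree ≠ 0 := by
    intro h
    have := hm.natDegree_eq_zero.mp h
    exact hf.not_isUnit (this ▸ isUnit_one)
  obtain ⟨z, hz⟩ := IsAlgClosed.exists_aeval_eq_zero ℂ f (by
    intro h
    exact hdeg (natDegree_eq_of_degree_eq_some h))
  have hzi : IsIntegral ℤ z := ⟨f, hm, by rw [← Polynomial.aeval_def]; exact hz⟩
  have hzQ : IsIntegral ℚ z := hzi.tower_top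
  have hmin : minpoly ℤ z = f := by
    have h1 := minpoly.isIntegrallyClosed_dvd hzi hz
    have h2 : Associated (minpoly ℤ z) f :=
      (minpoly.irreducible hzi).associated_of_dvd hf h1
    exact eq_of_monic_of_associated (minpoly.monic hzi) hm h2
  set L := adjoin ℚ {z} with hL
  have hfin : FiniteDimensional ℚ L := adjoin.finiteDimensional hzQ
  have : NumberField L := { to_charZero := inferInstance, to_finiteDimensional := hfin }
  set α : L := AdjoinSimple.gen ℚ z with hα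
  have hαz : algebraMap L ℂ α = z := AdjoinSimple.algebraMap_gen ℚ z
  have hαi : IsIntegral ℤ α := by
    rw [← hαz] at hzi
    exact (isIntegral_algebraMap_iff (algebraMap L ℂ).injective).mp hzi
  have hαc : CInj α := by
    intro σ τ h
    apply adjoin_algHom_ext ℚ (s := {z})
    intro x hx
    rw [Set.mem_singleton_iff] at hx
    subst hx
    exact h
  have hminα : minpoly ℤ α = f := by
    rw [← hmin, ← hαz]
    exact (minpoly.algebraMap_eq (algebraMap L ℂ).injective α).symm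
  have hpmap : f.map (Int.castRingHom ℂ) = ∏ τ : L →ₐ[ℚ] ℂ, (X - C (τ α)) := by
    rw [← minpoly_map_eq hαc, minpoly.isIntegrallyClosed_eq_field_fractions' ℚ hαi, hminα,
      Polynomial.map_map]
    rfl
  have hMM : Real.log (f.map (Int.castRingHom ℂ)).mahlerMeasure = lam α := by
    rw [hpmap]
    have h1 : (∏ τ : L →ₐ[ℚ] ℂ, (X - C (τ α))).mahlerMeasure = ∏ τ : L →ₐ[ℚ] ℂ, max 1 ‖τ α‖ := by
      rw [Finset.prod_eq_multiset_prod, prod_mahlerMeasure_eq_mahlerMeasure_prod, Multiset.map_map,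
        Finset.prod_eq_multiset_prod]
      congr 1
      refine Multiset.map_congr rfl fun τ _ => ?_
      rw [Function.comp_apply, mahlerMeasure_X_sub_C]
    rw [h1, Real.log_prod]
    · rfl
    · intro τ _
      have : (0:ℝ) < max 1 ‖τ α‖ := lt_of_lt_of_le one_pos (le_max_left _ _)
      exact this.ne'
  have hfr : finrank ℚ L = f.natDegree := by
    rw [hL, adjoin.finrank hzQ, minpoly.isIntegrallyClosed_eq_field_fractions' ℚ hzi, hmin]
    exact natDegree_map_eq_of_injective (algebraMap ℤ ℚ).injective_int f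
  have hlampos : 0 < lam α := by
    rw [← hMM]; exact Real.log_pos hM
  have hα0 : α ≠ 0 := by
    intro h
    rw [h] at hlampos
    unfold lam at hlampos
    simp at hlampos
  have hαroot : ∀ n : ℕ, 0 < n → α ^ n ≠ 1 := by
    intro n hn h
    have h1 := lam_pow α n
    rw [h] at h1
    have h2 : lam (1 : L) = 0 := by unfold lam; simp
    rw [h2] at h1
    have h3 : (0:ℝ) < n := by exact_mod_cast hn
    have : 0 < (n:ℝ) * lam α := mul_pos h3 hlampos
    linarith
  have hmain := main_sharp hαi hα0 hαroot (by rw [hminα]; exact hu) s D hinj Y (by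
    intro i hi x hx
    rw [mem_aRoots hαi, hminα]
    exact hY i hi x hx) hYt J k hk
  rw [hfr, ← hMM] at hmain
  exact hmain

/-- the sum `S` at places -/
noncomputable def sqJ {ι : Type*} (s : Finset ι) (D : ι → Place.{u}) (J R : ι → ℕ) : ℝ :=
  ∑ i ∈ s, (R i : ℝ) ^ 2 * lev (D i).q (J i) / (D i).e * Real.log (D i).p

/-- the sum `W` at places -/
noncomputable def linJ {ι : Type*} (s : Finset ι) (D : ι → Place.{u}) (J R : ι → ℕ) : ℝ :=
  ∑ i ∈ s, (J i : ℝ) * R i / (D i).e * Real.log (D i).p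

lemma linJ_nonneg {ι : Type*} (s : Finset ι) (D : ι → Place.{u}) (J R : ι → ℕ) :
    0 ≤ linJ s D J R := by
  unfold linJ
  refine Finset.sum_nonneg fun i _ => ?_
  have : 0 ≤ Real.log (D i).p := Real.log_natCast_nonneg _
  positivity

/-- **The inequality for all numbers of powers.** -/
theorem all_sharp (f : ℤ[X]) (hf : Irreducible f)
    (hM : 1 < (f.map (Int.castRingHom ℂ)).mahlerMeasure)
    (hM2 : (f.map (Int.castRingHom ℂ)).mahlerMeasure < 2)
    {ι : Type*} (s : Finset ι) (D : ι → Place.{u}) (hinj : Set.InjOn (fun i => (D i).p) s)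
    (Y : ∀ i, Finset (D i).K) (hY : ∀ i ∈ s, ∀ x ∈ Y i, aeval x f = 0)
    (hYt : ∀ i ∈ s, TorsionInd (Y i)) (J : ι → ℕ) (k : ℕ) (hk : 1 ≤ k) :
    k * sqJ s D J (fun i => (Y i).card) ≤
      linJ s D J (fun i => (Y i).card) + f.natDegree * Real.log (f.natDegree * k) +
      f.natDegree * k * (k + 1) * Real.log (f.map (Int.castRingHom ℂ)).mahlerMeasure := by
  classical
  obtain ⟨hlc, hc0⟩ := Pool.Agent.H389R3.LP.units_of_lt_two f hf hM hM2
  have hex : ∀ i, ∃ Z : Finset 𝒪[(D i).K], i ∈ s → Z.card = (Y i).card ∧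
      ∀ x ∈ Z, (x : (D i).K) ∈ Y i := by
    intro i
    by_cases hi : i ∈ s
    · refine ⟨(Y i).attach.image fun x => ⟨x.1, mem_of_zero hlc (hY i hi x.1 x.2)⟩, fun _ => ⟨?_, ?_⟩⟩
      · rw [Finset.card_image_of_injective, Finset.card_attach]
        intro x y hxy
        apply Subtype.ext
        have h5 := Subtype.ext_iff.mp hxy
        exact h5
      · intro x hx
        rw [Finset.mem_image] at hx
        obtain ⟨y, _, rfl⟩ := hx
        exact y.2
    · exact ⟨∅, fun h => absurd h hi⟩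
  choose Z hZ using hex
  have hZ1 : ∀ i ∈ s, ∀ x : 𝒪[(D i).K], x ∈ Z i → aeval x f = 0 := by
    intro i hi x hx
    have h1 := hY i hi _ ((hZ i hi).2 x hx)
    rw [aeval_sub] at h1
    exact Subtype.val_injective h1
  have hZ2 : ∀ i ∈ s, ∀ x : 𝒪[(D i).K], x ∈ Z i → ∀ y : 𝒪[(D i).K], y ∈ Z i →
      ∀ m : ℕ, 1 ≤ m → x ^ m = y ^ m → x = y := by
    intro i hi x hx y hy m hm hxy
    have h1 := hYt i hi _ ((hZ i hi).2 x hx) _ ((hZ i hi).2 y hy) m hm (by
      have := congrArg Subtype.val hxy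
      simpa using this)
    exact Subtype.val_injective h1
  have key : ∀ g : ℤ[X], Irreducible g → g.Monic → |g.coeff 0| = 1 →
      1 < (g.map (Int.castRingHom ℂ)).mahlerMeasure →
      (∀ i ∈ s, ∀ x : 𝒪[(D i).K], x ∈ Z i → aeval x g = 0) →
      k * sqJ s D J (fun i => (Y i).card) ≤
        linJ s D J (fun i => (Y i).card) + g.natDegree * Real.log (g.natDegree * k) +
        g.natDegree * k * (k + 1) * Real.log (g.map (Int.castRingHom ℂ)).mahlerMeasure := by
    intro g hg hgm hg0 hgM hgt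
    have h := irr_sharp g hg hgm (Int.isUnit_iff_abs_eq.mpr hg0) hgM s (fun i => (D i).toLoc) hinj Z
      (fun i hi x hx => hgt i hi x hx) (fun i hi x hx y hy m hm hxy => hZ2 i hi x hx y hy m hm hxy)
      J k hk
    have e1 : sqJ s D J (fun i => (Y i).card) =
        ∑ i ∈ s, ((Z i).card : ℝ) ^ 2 * lev ((D i).toLoc).q (J i) / ((D i).toLoc).e *
          Real.log ((D i).toLoc).p := by
      unfold sqJ
      refine Finset.sum_congr rfl fun i hi => ?_
      rw [(hZ i hi).1, Place.toLoc_q]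
      rfl
    have e2 : linJ s D J (fun i => (Y i).card) =
        ∑ i ∈ s, (J i : ℝ) * (Z i).card / ((D i).toLoc).e * Real.log ((D i).toLoc).p := by
      unfold linJ
      refine Finset.sum_congr rfl fun i hi => ?_
      rw [(hZ i hi).1]
      rfl
    rw [e1, e2]
    exact h
  rcases (abs_eq (zero_le_one' ℤ)).mp hlc with h3 | h3
  · exact key f hf h3 hc0 hM hZ1
  · have hMneg := MM_neg' f
    have := key (-f) ((Associated.irreducible_iff (Associated.neg_left (Associated.refl f))).mpr hf)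
      (by rw [Monic, leadingCoeff_neg, h3]; rfl) (by rw [coeff_neg, abs_neg]; exact hc0)
      (by rw [hMneg]; exact hM) (fun i hi x hx => by rw [map_neg, hZ1 i hi x hx, neg_zero])
    rw [hMneg, natDegree_neg] at this
    exact this

end Pool.Agent.Y642.LZ
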