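import Mathlib
import Pool.Agent.TH53.SL5
import Pool.Agent.Y642.LZ.I

/-!
# The Mahler measure exceeds that of Lehmer's polynomial
-/

set_option autoImplicit false

open Finset Polynomial

universe u

namespace Pool.Agent.Y642.LZ

/-- choice of the number of powers -/
lemma choice_sharp {s : ℝ} (hs : 1 ≤ s) :
    ∃ k : ℕ, 1 ≤ k ∧ s ^ 2 - 1 + Real.log k + 174 / 1000 * k * (k + 1) ≤ k * s := by
  have hlog2 := Real.log_two_lt_d9
  rcases le_or_gt s (144 / 100) with h1 | h1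
  · refine ⟨1, le_rfl, ?_⟩
    simp only [Nat.cast_one, Real.log_one]
    nlinarith
  rcases le_or_gt s (170 / 100) with h2 | h2
  · refine ⟨3, by norm_num, ?_⟩
    have h3 : 5 * Real.log 3 ≤ 8 * Real.log 2 := by
      have e1 : 5 * Real.log 3 = Real.log (3 ^ 5) := by rw [Real.log_pow]; norm_num
      have e2 : 8 * Real.log 2 = Real.log (2 ^ 8) := by rw [Real.log_pow]; norm_num
      rw [e1, e2]
      exact Real.log_le_log (by norm_num) (by norm_num)
    push_cast
    nlinarith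
  rcases le_or_gt s 2 with h3 | h3
  · refine ⟨4, by norm_num, ?_⟩
    have h4 : Real.log 4 = 2 * Real.log 2 := by
      rw [show (4:ℝ) = 2 ^ 2 by norm_num, Real.log_pow]; norm_num
    push_cast
    rw [h4]
    nlinarith
  set k : ℕ := ⌈2 * s⌉₊ with hk
  have hkl : 2 * s ≤ k := Nat.le_ceil _
  have hku : (k:ℝ) < 2 * s + 1 := Nat.ceil_lt_add_one (by linarith)
  have hk5 : 5 ≤ k := by
    have : (4:ℝ) < k := by linarith
    exact_mod_cast this
  have hk5' : (5:ℝ) ≤ k := by exact_mod_cast hk5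
  refine ⟨k, by omega, ?_⟩
  have h5 : 3 * Real.log 5 ≤ 7 * Real.log 2 := by
    have e1 : 3 * Real.log 5 = Real.log (5 ^ 3) := by rw [Real.log_pow]; norm_num
    have e2 : 7 * Real.log 2 = Real.log (2 ^ 7) := by rw [Real.log_pow]; norm_num
    rw [e1, e2]
    exact Real.log_le_log (by norm_num) (by norm_num)
  have h6 : Real.log k ≤ k / 5 - 1 + Real.log 5 := by
    have h7 := Real.log_le_sub_one_of_pos (show (0:ℝ) < k / 5 by positivity)
    rw [Real.log_div (by positivity) (by norm_num)] at h7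
    linarith
  have h8 : ((k:ℝ) ^ 2 - 1) / 4 ≤ k * s - s ^ 2 := by
    have : 0 ≤ (k - 2 * s) * (1 - (k - 2 * s)) := mul_nonneg (by linarith) (by linarith)
    nlinarith
  nlinarith

lemma lev_nonneg {q : ℕ} (hq : 2 ≤ q) (J : ℕ) : 0 ≤ lev q J := by
  unfold lev
  refine Finset.sum_nonneg fun j _ => ?_
  have : (2:ℝ) ≤ q := by exact_mod_cast hq
  have : (0:ℝ) ≤ (q:ℝ) - 1 := by linarith
  positivity

lemma sqJ_nonneg {ι : Type*} (s : Finset ι) (D : ι → Place.{u}) (J R : ι → ℕ) :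
    0 ≤ sqJ s D J R := by
  unfold sqJ
  refine Finset.sum_nonneg fun i _ => ?_
  have hq : 2 ≤ (D i).q := by rw [← Place.toLoc_q]; exact Loc.two_le_q _
  have h1 := lev_nonneg hq (J i)
  have h2 : 0 ≤ Real.log (D i).p := Real.log_natCast_nonneg _
  positivity

/-- **The lower bound.** -/
theorem sharp_lehmer (f : ℤ[X]) (hf : Irreducible f)
    (hM : 1 < (f.map (Int.castRingHom ℂ)).mahlerMeasure)
    {ι : Type*} (s : Finset ι) (D : ι → Place.{u}) (hinj : Set.InjOn (fun i => (D i).p) s)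
    (Y : ∀ i, Finset (D i).K) (hY : ∀ i ∈ s, ∀ x ∈ Y i, aeval x f = 0)
    (hYt : ∀ i ∈ s, TorsionInd (Y i)) (J : ι → ℕ) {S W : ℝ}
    (hS : S = sqJ s D J (fun i => (Y i).card)) (hW : W = linJ s D J (fun i => (Y i).card))
    (h : (f.natDegree : ℝ) ^ 2 * (1 + Real.log f.natDegree) + f.natDegree * W ≤ S ^ 2) :
    1189 / 1000 ≤ (f.map (Int.castRingHom ℂ)).mahlerMeasure := by
  rcases Nat.eq_zero_or_pos f.natDegree with hdeg | hdeg
  · rw [natDegree_eq_zero] at hdeg
    obtain ⟨c, hc⟩ := hdeg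
    rw [← hc, Polynomial.map_C, mahlerMeasure_const, eq_intCast, Complex.norm_intCast] at hM ⊢
    have h1 : (1:ℤ) < |c| := by exact_mod_cast hM
    have h2 : (2:ℤ) ≤ |c| := h1
    have h3 : (2:ℝ) ≤ |(c:ℝ)| := by exact_mod_cast h2
    linarith
  by_contra hcon
  push Not at hcon
  set M := (f.map (Int.castRingHom ℂ)).mahlerMeasure with hMdef
  have hn1 : (1:ℝ) ≤ f.natDegree := by exact_mod_cast hdeg
  set n : ℝ := (f.natDegree : ℝ) with hn
  have hn0 : 0 < n := by linarith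
  have hlogn : 0 ≤ Real.log n := Real.log_nonneg hn1
  have hW0 : 0 ≤ W := hW ▸ linJ_nonneg s D J _
  have hS0 : 0 ≤ S := hS ▸ sqJ_nonneg s D J _
  have hM0 : 0 < M := by linarith
  have hlam : Real.log M < 174 / 1000 := by
    rw [Real.log_lt_iff_lt_exp hM0]
    have h1 := Real.quadratic_le_exp_of_nonneg (show (0:ℝ) ≤ 174 / 1000 by norm_num)
    norm_num at h1 ⊢
    linarith
  set t : ℝ := S / n with ht
  have hSt : S = n * t := by rw [ht]; field_simp
  have ht0 : 0 ≤ t := by rw [ht]; positivity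
  rw [hSt] at h
  have h1 : n * (1 + Real.log n) + W ≤ n * t ^ 2 := by
    have h2 : n * (n * (1 + Real.log n) + W) ≤ n * (n * t ^ 2) := by nlinarith
    exact le_of_mul_le_mul_left h2 hn0
  have ht1 : 1 ≤ t := by
    have h2 : n * 1 ≤ n * t ^ 2 := by nlinarith
    have h3 : 1 ≤ t ^ 2 := le_of_mul_le_mul_left h2 hn0
    nlinarith
  obtain ⟨k, hk1, hk⟩ := choice_sharp ht1
  have h4 := all_sharp f hf hM (by linarith) s D hinj Y hY hYt J k hk1
  rw [← hS, ← hW, ← hMdef, ← hn, hSt] at h4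
  have hk0 : (0:ℝ) < k := by exact_mod_cast hk1
  rw [Real.log_mul hn0.ne' hk0.ne'] at h4
  have h5 : n * k * (k + 1) * Real.log M < n * k * (k + 1) * (174 / 1000) :=
    mul_lt_mul_of_pos_left hlam (by positivity)
  have h6 := mul_le_mul_of_nonneg_left hk hn0.le
  nlinarith

/-- the value for Lehmer's polynomial -/
theorem lehmer_value : ((X ^ 10 + X ^ 9 - X ^ 7 - X ^ 6 - X ^ 5 - X ^ 4 - X ^ 3 + X + 1 : ℤ[X]).map
    (Int.castRingHom ℂ)).mahlerMeasure < 1189 / 1000 :=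
  Pool.Agent.TH53.SL.lehmer_lt

end Pool.Agent.Y642.LZ
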